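import Pool.Agent.Lib.DM.G.HNf

/-!
# Theorem DM, part G, module GMm: the groups `HP`, `HPN` and the fields `Mf`, `Mn` (`S_GM`)
-/

set_option autoImplicit false

open scoped Pointwise

noncomputable section

namespace Pool.Agent.DM.G

open Pool.Agent.MuZ Pool.Agent.FW Pool.Agent.DN
open Pool.Agent.DI (io ofC io_inj exists_io io_ofC ofC_io VP MP UP TP ex)

/-- The groups `HP`, `HPN`. -/
def C_HPg : Prop :=
  ∀ (k t : ℕ) [SqN k t] (f : ℕ), 0 < f →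
    (HP f (⊤ : Ideal (OO k t)) ∧ (∀ a : Ideal (OO k t), HP f a → a ≠ ⊥ ∧ PrI a (3 * f)) ∧
      (∀ a a' : Ideal (OO k t), HP f a → Ray (3 * f) a a' → HP f a') ∧
      ∀ a a' : Ideal (OO k t), HP f a → HP f a' → HP f (a * a')) ∧
    ∀ N : ℕ, 1 ≤ N → HPN f N (⊤ : Ideal (OO k t)) ∧
      (∀ a : Ideal (OO k t), HPN f N a → a ≠ ⊥ ∧ PrI a (f * 3 ^ N)) ∧
      (∀ a a' : Ideal (OO k t), HPN f N a → Ray (f * 3 ^ N) a a' → HPN f N a') ∧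
      (∀ a a' : Ideal (OO k t), HPN f N a → HPN f N a' → HPN f N (a * a')) ∧
      ∀ a : Ideal (OO k t), a ≠ ⊥ → PrI a (f * 3 ^ N) → (HPN f N a ↔ HP f a ∧
        (3 : ℤ) ^ N ∣ (NI a : ℤ) - 1)

theorem aHPg : C_HPg := by
  intro k t _ f hf0
  obtain ⟨-, -, -, o2nm, o2mul, o2bot, -, -⟩ := aO2 k t
  obtain ⟨o6mul, o6N, o6co, o6sp, -⟩ := aO6 k t
  have h2f : 0 < 3 * f := by omega
  obtain ⟨rfl7, sym7, tra7, mul7, -, inv7, -⟩ := aO7 k t (3 * f) h2f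
  have e1 : sp (1 : OO k t) = ⊤ := Ideal.span_singleton_one
  have spm : ∀ v u : OO k t, sp v * sp u = sp (v * u) := fun v u =>
    Ideal.span_singleton_mul_span_singleton v u
  have sp0 : ∀ v : OO k t, v ≠ 0 → sp v ≠ ⊥ := fun v hv h => hv (Ideal.span_singleton_eq_bot.1 h)
  obtain ⟨⟨hf1, -⟩, hfmul, -, hfcon, -, -, -, hfc, -, -⟩ := aHNf k t f 1 le_rfl
  refine ⟨⟨⟨1, one_ne_zero, hf1, ?_⟩, ?_, ?_, ?_⟩, ?_⟩
  · rw [e1]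
    exact rfl7 _
  · rintro a ⟨v, hv0, hv, hr⟩
    obtain ⟨i1, i2⟩ := inv7 _ _ hr
    exact ⟨i1.2 (sp0 v hv0), i2.2 ((o6sp _ v h2f).2 (hfc v hv))⟩
  · rintro a a' ⟨v, hv0, hv, hr⟩ haa
    exact ⟨v, hv0, hv, tra7 _ _ _ (sym7 _ _ haa) hr⟩
  · rintro a a' ⟨v, hv0, hv, hr⟩ ⟨v', hv0', hv', hr'⟩
    refine ⟨v * v', mul_ne_zero hv0 hv0', hfmul _ _ hv hv', ?_⟩
    have h := mul7 _ _ _ _ hr hr'
    rw [spm] at h
    exact h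
  · intro N hN
    have hM0 : 0 < f * 3 ^ N := by positivity
    obtain ⟨⟨-, hN1⟩, -, hNmul, -, -, -, -, -, hNc, -, -, -, cop9, -⟩ := aHNf k t f N hN
    obtain ⟨rflM, symM, traM, mulM, -, invM, lowM, -⟩ := aO7 k t (f * 3 ^ N) hM0
    have e2 : f * 3 ^ N = 3 * f * 3 ^ (N - 1) := by
      obtain ⟨n, rfl⟩ := Nat.exists_eq_add_of_le' hN
      rw [Nat.add_sub_cancel, pow_succ]
      ring
    refine ⟨⟨1, one_ne_zero, hN1, ?_⟩, ?_, ?_, ?_, ?_⟩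
    · rw [e1]
      exact rflM _
    · rintro a ⟨v, hv0, hv, hr⟩
      obtain ⟨i1, i2⟩ := invM _ _ hr
      exact ⟨i1.2 (sp0 v hv0), i2.2 ((o6sp _ v hM0).2 (hNc v hv))⟩
    · rintro a a' ⟨v, hv0, hv, hr⟩ haa
      exact ⟨v, hv0, hv, traM _ _ _ (symM _ _ haa) hr⟩
    · rintro a a' ⟨v, hv0, hv, hr⟩ ⟨v', hv0', hv', hr'⟩
      refine ⟨v * v', mul_ne_zero hv0 hv0', hNmul _ _ hv hv', ?_⟩
      have h := mulM _ _ _ _ hr hr'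
      rw [spm] at h
      exact h
    · intro a ha0 haM
      have hnm : ∀ v : OO k t, Cop v (f * 3 ^ N) → Ray (f * 3 ^ N) a (sp v) →
          (3 : ℤ) ^ N ∣ (NI a : ℤ) - Nm v := by
        intro v hv hr
        have h := aO9 k t (f * 3 ^ N) hM0 a (sp v) haM ((o6sp _ v hM0).2 hv) hr
        rw [o2nm] at h
        refine dvd_trans ⟨(f : ℤ), ?_⟩ h
        push_cast
        ring
      constructor
      · rintro ⟨v, hv0, hv, hr⟩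
        refine ⟨⟨v, hv0, hv.1, lowM (3 * f) _ _ (Dvd.intro _ e2.symm) hr⟩, ?_⟩
        have h := hnm v (hNc v hv) hr
        have := dvd_add h hv.2
        rwa [sub_add_sub_cancel] at this
      · rintro ⟨⟨v, hv0, hv, hr⟩, hn⟩
        have hvM : Cop v (f * 3 ^ N) := cop9 v (hfc v hv)
        have haM' := haM
        have hspM := (o6sp _ v hM0).2 hvM
        rw [e2] at haM' hspM
        obtain ⟨β, hβ0, hβ1, hβc, hβr⟩ := DS.G.aRUp k t (3 * f) (3 ^ (N - 1)) (sp v) a h2f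
          (by positivity) (sp0 v hv0) ha0 hspM haM' hr
        rw [spm] at hβr
        rw [← e2] at hβc hβr
        have hcM : Cop (β * v) (f * 3 ^ N) := cop_mul hβc hvM
        have hHf : Hf f (β * v) := by
          refine hfcon v _ ?_ hv
          have e : β * v - v = (β - 1) * v := by ring
          rw [e]
          exact hβ1.mul_right _
        refine ⟨β * v, mul_ne_zero hβ0 hv0, ⟨hHf, ?_⟩, hβr⟩
        have h := hnm _ hcM hβr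
        have := dvd_sub hn h
        rwa [show (NI a : ℤ) - 1 - (NI a - Nm (β * v)) = Nm (β * v) - 1 by ring] at this

/-- `S_GM` for all imaginary quadratic fields, `f` any positive multiple of `5` (e.g. `Fok f`). -/
def C_GM : Prop :=
  ∀ (n t : ℕ) [SqN n t] (f : ℕ), 0 < f → 5 ∣ f →
    (HP f (⊤ : Ideal (OO n t)) ∧ (∀ a : Ideal (OO n t), HP f a → a ≠ ⊥ ∧ PrI a (3 * f)) ∧
      (∀ a a' : Ideal (OO n t), HP f a → Ray (3 * f) a a' → HP f a') ∧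
      ∀ a a' : Ideal (OO n t), HP f a → HP f a' → HP f (a * a')) ∧
    (∀ N : ℕ, 1 ≤ N → HPN f N (⊤ : Ideal (OO n t)) ∧
      (∀ a : Ideal (OO n t), HPN f N a → a ≠ ⊥ ∧ PrI a (f * 3 ^ N)) ∧
      (∀ a a' : Ideal (OO n t), HPN f N a → Ray (f * 3 ^ N) a a' → HPN f N a') ∧
      (∀ a a' : Ideal (OO n t), HPN f N a → HPN f N a' → HPN f N (a * a')) ∧
      ∀ a : Ideal (OO n t), a ≠ ⊥ → PrI a (f * 3 ^ N) → (HPN f N a ↔ HP f a ∧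
        (3 : ℤ) ^ N ∣ (NI a : ℤ) - 1)) ∧
    FiniteDimensional ℚ (Mf n t f) ∧ KQ n t ≤ Mf n t f ∧
    (∀ N : ℕ, 1 ≤ N → FiniteDimensional ℚ (Mn n t f N) ∧ Mf n t f ≤ Mn n t f N ∧
      Mn n t f N ≤ Mn n t f (N + 1)) ∧
    (∀ τ ∈ GK n t, ∀ a : Ideal (OO n t), Psi τ (3 * f) a → ((∀ x ∈ Mf n t f, τ x = x) ↔ HP f a)) ∧
    (∀ (N : ℕ), 1 ≤ N → ∀ τ ∈ GK n t, ∀ a : Ideal (OO n t), Psi τ (f * 3 ^ N) a →
      ((∀ x ∈ Mn n t f N, τ x = x) ↔ HPN f N a)) ∧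
    ∀ (N : ℕ), 1 ≤ N → ∀ ζ : Om, IsPrimitiveRoot ζ (3 ^ N) → ∀ τ : Gal(Om/ℚ),
      (∀ x ∈ Mn n t f N, τ x = x) ↔ (∀ x ∈ Mf n t f, τ x = x) ∧ τ ζ = ζ

/-- `ζ ^ n = ζ` for a primitive root of unity `ζ` of order `3 ^ N`. -/
private theorem GMm_pow {N n : ℕ} {ζ : Om} (hζ : IsPrimitiveRoot ζ (3 ^ N)) :
    ζ ^ n = ζ ↔ (3 : ℤ) ^ N ∣ (n : ℤ) - 1 := by
  have h0 : ζ ≠ 0 := hζ.ne_zero (by positivity)
  have hc : (((3 ^ N : ℕ)) : ℤ) = (3 : ℤ) ^ N := by push_cast; rfl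
  rw [← hc, ← hζ.zpow_eq_one_iff_dvd, zpow_sub₀ h0, zpow_natCast, zpow_one, div_eq_one_iff_eq h0]

theorem aGMn (hE1 : DS.S_E1) (hE6 : DS.S_E6) (hE8 : DS.S_E8) : C_GM := by
  intro k t _ f hf0 h5
  obtain ⟨⟨g1, g2, g3, g4⟩, hG2⟩ := aHPg k t f hf0
  have hfN : ∀ N : ℕ, 0 < f * 3 ^ N := fun N => by positivity
  have hf2 : 0 < 3 * f := by omega
  have h15 : 15 ∣ 3 * f := by
    obtain ⟨c, rfl⟩ := h5
    exact ⟨c, by ring⟩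
  have d2 : 15 ∣ 3 * f := h15
  have hdv : ∀ N : ℕ, 1 ≤ N → 3 * f ∣ f * 3 ^ N := by
    intro N hN
    obtain ⟨M, rfl⟩ : ∃ M, N = M + 1 := ⟨N - 1, by omega⟩
    exact ⟨3 ^ M, by ring⟩
  have dN : ∀ N : ℕ, 1 ≤ N → 15 ∣ f * 3 ^ N := fun N hN => h15.trans (hdv N hN)
  have hcop : ∀ (τ : Gal(Om/ℚ)) (N : ℕ) (a : Ideal (OO k t)), Psi τ N a → PrI a N :=
    fun τ N a h => (((aO6 k t).2.1 15 N a).1 h.cop).2
  obtain ⟨m1, m2, m3⟩ := hE8 k t (3 * f) (HP f) hf2 d2 g1 g2 g3 g4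
  have nn : ∀ N : ℕ, 1 ≤ N →
      FiniteDimensional ℚ (FixI (f * 3 ^ N) (HPN (n := k) (t := t) f N)) ∧
      KQ k t ≤ FixI (f * 3 ^ N) (HPN (n := k) (t := t) f N) ∧
      ∀ τ ∈ GK k t, ∀ a : Ideal (OO k t), Psi τ (f * 3 ^ N) a →
        ((∀ x ∈ FixI (f * 3 ^ N) (HPN (n := k) (t := t) f N), τ x = x) ↔ HPN f N a) :=
    fun N hN => hE8 k t (f * 3 ^ N) (HPN f N) (hfN N) (dN N hN) (hG2 N hN).1 (hG2 N hN).2.1
      (hG2 N hN).2.2.1 (hG2 N hN).2.2.2.1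
  have hPsi : ∀ (τ : Gal(Om/ℚ)) (N M : ℕ) (a : Ideal (OO k t)), 0 < N → 15 ∣ N → Psi τ N a →
      M ∣ N → 15 ∣ M → Psi τ M a :=
    fun τ N M a hN h5 h1 h2 h3 => (hE1 k t N hN h5).2.2.2.2 τ M a h1 h2 h3
  have hGK : ∀ (τ : Gal(Om/ℚ)) (F : IntermediateField ℚ Om), KQ k t ≤ F → (∀ x ∈ F, τ x = x) →
      τ ∈ GK k t := by
    intro τ F hF h
    exact (IntermediateField.mem_fixingSubgroup_iff (KQ k t) τ).mpr fun x hx => h x (hF hx)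
  have hle : ∀ N : ℕ, 1 ≤ N → Mf k t f ≤ Mn k t f N := by
    intro N hN x hx τ hτ a h1 h2
    have h3 := (hG2 N hN).2.1 a h2
    exact hx τ hτ a (hPsi τ _ (3 * f) a (hfN N) (dN N hN) h1 (hdv N hN) d2)
      (((hG2 N hN).2.2.2.2 a h3.1 h3.2).mp h2).1
  have hle' : ∀ N : ℕ, 1 ≤ N → Mn k t f N ≤ Mn k t f (N + 1) := by
    intro N hN x hx τ hτ a h1 h2
    have hN1 : 1 ≤ N + 1 := by omega
    have h3 := (hG2 (N + 1) hN1).2.1 a h2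
    have hd : f * 3 ^ N ∣ f * 3 ^ (N + 1) := Nat.mul_dvd_mul_left f (pow_dvd_pow 3 (Nat.le_succ N))
    have h4 := hPsi τ _ (f * 3 ^ N) a (hfN (N + 1)) (dN (N + 1) hN1) h1 hd (dN N hN)
    have h5 := ((hG2 (N + 1) hN1).2.2.2.2 a h3.1 h3.2).mp h2
    have h6 : (3 : ℤ) ^ N ∣ (3 : ℤ) ^ (N + 1) := pow_dvd_pow 3 (Nat.le_succ N)
    exact hx τ hτ a h4 (((hG2 N hN).2.2.2.2 a h4.ne (hcop τ _ a h4)).mpr ⟨h5.1, h6.trans h5.2⟩)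
  refine ⟨⟨g1, g2, g3, g4⟩, hG2, m1, m2, fun N hN => ⟨(nn N hN).1, hle N hN, hle' N hN⟩, m3,
    fun N hN => (nn N hN).2.2, ?_⟩
  intro N hN ζ hζ τ
  have hζN : ζ ^ (f * 3 ^ N) = 1 := by
    rw [mul_comm, pow_mul, hζ.pow_eq_one, one_pow]
  constructor
  · intro h
    have hτ : τ ∈ GK k t := hGK τ _ (nn N hN).2.1 h
    obtain ⟨a, ha⟩ := (hE1 k t (f * 3 ^ N) (hfN N) (dN N hN)).1 τ hτ
    have h1 : HPN f N a := ((nn N hN).2.2 τ hτ a ha).mp h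
    have h2 := (((hG2 N hN).2.2.2.2 a ha.ne (hcop τ _ a ha)).mp h1).2
    have h4 : τ ζ = ζ ^ NI a := hE6 k t τ (f * 3 ^ N) a hτ (hfN N) (dN N hN) ha ζ hζN
    refine ⟨fun x hx => h x (hle N hN hx), ?_⟩
    rw [h4]
    exact (GMm_pow hζ).mpr h2
  · rintro ⟨h, h'⟩ x hx
    have hτ : τ ∈ GK k t := hGK τ _ m2 h
    obtain ⟨a, ha⟩ := (hE1 k t (f * 3 ^ N) (hfN N) (dN N hN)).1 τ hτ
    have h1 : HP f a :=
      (m3 τ hτ a (hPsi τ _ (3 * f) a (hfN N) (dN N hN) ha (hdv N hN) d2)).mp h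
    have h4 : τ ζ = ζ ^ NI a := hE6 k t τ (f * 3 ^ N) a hτ (hfN N) (dN N hN) ha ζ hζN
    rw [h4] at h'
    have h2 := (GMm_pow hζ).mp h'
    have h5 : HPN f N a := ((hG2 N hN).2.2.2.2 a ha.ne (hcop τ _ a ha)).mpr ⟨h1, h2⟩
    exact ((nn N hN).2.2 τ hτ a ha).mpr h5 x hx

/-- **The fields.** -/
theorem aGM (hE1 : DS.S_E1) (hE6 : DS.S_E6) (hE8 : DS.S_E8) : S_GM := by
  intro k t _ f hf
  have h5 : 5 ∣ f := dvd_trans (by norm_num) hf.dvd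
  exact aGMn hE1 hE6 hE8 k t f hf.pos h5

end Pool.Agent.DM.G
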