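import Pool.Agent.Lib.DM.G.HNf

/-!
# Theorem DM, part G, module GRm: systems of representatives
-/

set_option autoImplicit false

open scoped Pointwise

noncomputable section

namespace Pool.Agent.DM.G

open Pool.Agent.MuZ Pool.Agent.FW Pool.Agent.DN
open Pool.Agent.DS.G (IsRp UR unit_inv)

/-- Choice of representatives in a finite set. -/
private theorem GRm_rep {α : Type} (Q : α → Prop) (r : α → α → Prop)
    (hr : ∀ x, Q x → r x x) (hs : ∀ x y, Q x → Q y → r x y → r y x) (Y : Finset α)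
    (hY : ∀ y ∈ Y, Q y) :
    ∃ T : Finset α, T ⊆ Y ∧ (∀ y ∈ Y, ∃ t ∈ T, r t y ∨ ∃ y' ∈ Y, r t y' ∧ r y' y) ∧
      ∀ t ∈ T, ∀ t' ∈ T, r t t' → t = t' := by
  classical
  induction Y using Finset.induction_on with
  | empty => exact ⟨∅, Finset.Subset.refl _, by simp, by simp⟩
  | insert y Y hy ih =>
    obtain ⟨T, h1, h2, h3⟩ := ih fun z hz => hY z (Finset.mem_insert_of_mem hz)
    have hQy : Q y := hY y (Finset.mem_insert_self _ _)
    by_cases h : ∃ t ∈ T, r t y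
    · refine ⟨T, h1.trans (Finset.subset_insert _ _), ?_, h3⟩
      intro z hz
      rcases Finset.mem_insert.1 hz with rfl | hz
      · obtain ⟨t, ht, htz⟩ := h
        exact ⟨t, ht, Or.inl htz⟩
      · obtain ⟨t, ht, h4⟩ := h2 z hz
        refine ⟨t, ht, ?_⟩
        rcases h4 with h4 | ⟨y', hy', h5⟩
        · exact Or.inl h4
        · exact Or.inr ⟨y', Finset.mem_insert_of_mem hy', h5⟩
    · refine ⟨insert y T, Finset.insert_subset_insert _ h1, ?_, ?_⟩
      · intro z hz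
        rcases Finset.mem_insert.1 hz with rfl | hz
        · exact ⟨z, Finset.mem_insert_self _ _, Or.inl (hr z hQy)⟩
        · obtain ⟨t, ht, h4⟩ := h2 z hz
          refine ⟨t, Finset.mem_insert_of_mem ht, ?_⟩
          rcases h4 with h4 | ⟨y', hy', h5⟩
          · exact Or.inl h4
          · exact Or.inr ⟨y', Finset.mem_insert_of_mem hy', h5⟩
      · intro t ht t' ht' hrr
        rcases Finset.mem_insert.1 ht with e | ht
        · rcases Finset.mem_insert.1 ht' with e' | ht'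
          · rw [e, e']
          · exfalso
            rw [e] at hrr
            exact h ⟨t', ht', hs _ _ hQy (hY _ (Finset.mem_insert_of_mem (h1 ht'))) hrr⟩
        · rcases Finset.mem_insert.1 ht' with e' | ht'
          · exfalso
            rw [e'] at hrr
            exact h ⟨t, ht, hrr⟩
          · exact h3 t ht t' ht' hrr

/-- Representatives for an equivalence relation. -/
private theorem GRm_rep' {α : Type} (Q : α → Prop) (r : α → α → Prop)
    (hr : ∀ x, Q x → r x x) (hs : ∀ x y, Q x → Q y → r x y → r y x)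
    (ht : ∀ x y z, Q x → Q y → Q z → r x y → r y z → r x z) (Y : Finset α)
    (hY : ∀ y ∈ Y, Q y) :
    ∃ T : Finset α, T ⊆ Y ∧ (∀ y ∈ Y, ∃ t ∈ T, r t y) ∧ ∀ t ∈ T, ∀ t' ∈ T, r t t' → t = t' := by
  obtain ⟨T, h1, h2, h3⟩ := GRm_rep Q r hr hs Y hY
  refine ⟨T, h1, ?_, h3⟩
  intro y hy
  obtain ⟨t, htT, h4⟩ := h2 y hy
  refine ⟨t, htT, ?_⟩
  rcases h4 with h4 | ⟨y', hy', h5, h6⟩
  · exact h4
  · exact ht _ _ _ (hY _ (h1 htT)) (hY _ hy') (hY _ hy) h5 h6


/-- An integer `= 1` modulo `3 f` with square `a` times a unit. -/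
private theorem V0 {f N : ℕ} (hf : f.Coprime 3) (hN : 1 ≤ N) {ν : ℤ} (hν : ¬ (3 : ℤ) ∣ ν) :
    ∃ v : ℤ, ((3 * f : ℕ) : ℤ) ∣ v - 1 ∧ ((3 : ℤ) ^ N ∣ v ^ 2 * ν - 1 ∨ (3 : ℤ) ^ N ∣ v ^ 2 * ν + 1) := by
  obtain ⟨n, rfl⟩ : ∃ n, N = n + 1 := ⟨N - 1, by omega⟩
  -- the exponent
  obtain ⟨j, hj⟩ : ∃ j : ℕ, 3 ^ n = 2 * j + 1 := by
    have : Odd (3 ^ n) := Odd.pow (by decide)
    exact this
  have h1 : (3 : ℤ) ^ (n + 1) ∣ ν ^ 3 ^ n - 1 ∨ (3 : ℤ) ^ (n + 1) ∣ ν ^ 3 ^ n + 1 := by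
    have h2 : (3 : ℤ) ∣ ν - 1 ∨ (3 : ℤ) ∣ ν - -1 := by omega
    rcases h2 with h2 | h2
    · left
      have h3 := dvd_sub_pow_of_dvd_sub (p := 3) (a := ν) (b := 1) (by exact_mod_cast h2) n
      rw [one_pow] at h3
      exact_mod_cast h3
    · right
      have h3 := dvd_sub_pow_of_dvd_sub (p := 3) (a := ν) (b := -1) (by exact_mod_cast h2) n
      rw [Odd.neg_one_pow (Odd.pow (by decide)), sub_neg_eq_add] at h3
      exact_mod_cast h3
  -- `w = ± ν ^ j`, congruent to `1` modulo `3`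
  obtain ⟨w, hw1, hw2⟩ : ∃ w : ℤ, (3 : ℤ) ∣ w - 1 ∧ w ^ 2 = (ν ^ j) ^ 2 := by
    have h2 : ¬ (3 : ℤ) ∣ ν ^ j := fun h => hν (Int.prime_three.dvd_of_dvd_pow h)
    have h3 : (3 : ℤ) ∣ ν ^ j - 1 ∨ (3 : ℤ) ∣ -ν ^ j - 1 := by omega
    rcases h3 with h3 | h3
    · exact ⟨ν ^ j, h3, rfl⟩
    · exact ⟨-ν ^ j, h3, by ring⟩
  -- CRT
  have hc : IsCoprime (f : ℤ) ((3 : ℤ) ^ (n + 1)) := by
    have : IsCoprime (f : ℤ) (3 : ℤ) := by exact_mod_cast Nat.isCoprime_iff_coprime.2 hf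
    exact this.pow_right
  obtain ⟨x, y, hxy⟩ := hc
  -- `v = x f w + y 3 ^ (n + 1)`
  have hv1 : (f : ℤ) ∣ (x * f * w + y * 3 ^ (n + 1)) - 1 := ⟨x * w - x, by linear_combination hxy⟩
  have hv2 : (3 : ℤ) ^ (n + 1) ∣ (x * f * w + y * 3 ^ (n + 1)) - w :=
    ⟨y - y * w, by linear_combination w * hxy⟩
  have h3 : (3 : ℤ) ∣ 3 ^ (n + 1) := dvd_pow_self 3 (by omega)
  refine ⟨x * f * w + y * 3 ^ (n + 1), ?_, ?_⟩
  · have h4 : (3 : ℤ) ∣ (x * f * w + y * 3 ^ (n + 1)) - 1 := by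
      have h5 := dvd_add (h3.trans hv2) hw1
      rwa [sub_add_sub_cancel] at h5
    have h5 : IsCoprime (3 : ℤ) (f : ℤ) := by
      have : IsCoprime (f : ℤ) (3 : ℤ) := by exact_mod_cast Nat.isCoprime_iff_coprime.2 hf
      exact this.symm
    push_cast
    exact h5.mul_dvd h4 hv1
  · obtain ⟨z, hz⟩ := hv2
    have hv : x * f * w + y * 3 ^ (n + 1) = w + 3 ^ (n + 1) * z := by linear_combination hz
    have e : ν ^ 3 ^ n = w ^ 2 * ν := by
      rw [hj, hw2, pow_succ, ← pow_mul, mul_comm j 2]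
    rw [e] at h1
    rw [hv]
    rcases h1 with h1 | h1
    · left
      have e2 : (w + 3 ^ (n + 1) * z) ^ 2 * ν - 1 =
          (w ^ 2 * ν - 1) + 3 ^ (n + 1) * (z * (2 * w + 3 ^ (n + 1) * z) * ν) := by ring
      rw [e2]
      exact dvd_add h1 (dvd_mul_right _ _)
    · right
      have e2 : (w + 3 ^ (n + 1) * z) ^ 2 * ν + 1 =
          (w ^ 2 * ν + 1) + 3 ^ (n + 1) * (z * (2 * w + 3 ^ (n + 1) * z) * ν) := by ring
      rw [e2]
      exact dvd_add h1 (dvd_mul_right _ _)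

/-- Representatives exist, for all imaginary quadratic fields. -/
def C_GR : Prop :=
  ∀ (n t : ℕ) [SqN n t] (f N : ℕ), Fok f → 1 ≤ N →
    (∃ T : Finset (OO n t), IsRep f N T) ∧ ∃ D : Finset (Ideal (OO n t)), IsDS f N D

theorem aGRn : C_GR := by
  classical
  intro k t _ f N hf hN
  have hf0 : 0 < f := hf.pos
  have hff : 0 < 3 * f := by omega
  obtain ⟨-, -, -, o2nm, o2mul, o2bot, -, -⟩ := aO2 k t
  obtain ⟨o6mul, o6N, o6co, o6sp, -⟩ := aO6 k t
  obtain ⟨rfl7, sym7, tra7, mul7, -, -, -, sp7, -, -, R, hR⟩ := aO7 k t (3 * f) hff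
  obtain ⟨-, -, -, -, cinv, -, -, -, -⟩ := DS.G.aCop k t
  obtain ⟨⟨hf1, -⟩, hfmul, -, -, hNc, hfinv, -, hfc, -, -, hHf, -⟩ := aHNf k t f N hN
  have e1 : sp (1 : OO k t) = ⊤ := Ideal.span_singleton_one
  have spm : ∀ v u : OO k t, sp v * sp u = sp (v * u) := fun v u =>
    Ideal.span_singleton_mul_span_singleton v u
  have tm : ∀ a : Ideal (OO k t), ⊤ * a = a := fun a => Ideal.top_mul a
  have sp7' : ∀ v u : OO k t, v ≠ 0 → u ≠ 0 → Cop v (3 * f) → Cop u (3 * f) →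
      ((3 * f : ℕ) : OO k t) ∣ v - u → Ray (3 * f) (sp v) (sp u) := by
    intro v u h1 h2 h3 h4 h5
    refine (sp7 v u h1 h2 h3 h4).2 ⟨1, Nm_one, ?_⟩
    rw [one_mul]
    exact h5
  refine ⟨?_, ?_⟩
  · -- the representatives `T`
    set M : ℕ := f * 3 ^ N with hM
    have hM0 : 0 < M := by positivity
    set W : Finset (OO k t) := (Finset.range M ×ˢ Finset.range M).image
      (fun p : ℕ × ℕ => (⟨(p.1 : ℤ), (p.2 : ℤ)⟩ : OO k t)) with hW
    have hcov : ∀ v : OO k t, HN f N v →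
        ∃ u ∈ W.filter (fun u => HN f N u), (M : OO k t) ∣ v - u := by
      intro v hv
      set u : OO k t := ⟨v.re % (M : ℕ), v.im % (M : ℕ)⟩ with hu
      have hdM : ((M : ℕ) : OO k t) ∣ v - u := by
        rw [nat_dvd_iff, QuadraticAlgebra.re_sub, QuadraticAlgebra.im_sub]
        exact ⟨Int.dvd_self_sub_emod, Int.dvd_self_sub_emod⟩
      have h2M : (0 : ℤ) < (M : ℕ) := by exact_mod_cast hM0
      refine ⟨u, ?_, hdM⟩
      rw [Finset.mem_filter]
      refine ⟨?_, ?_⟩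
      · rw [hW, Finset.mem_image]
        refine ⟨((v.re % (M : ℕ)).toNat, (v.im % (M : ℕ)).toNat), ?_, ?_⟩
        · rw [Finset.mem_product, Finset.mem_range, Finset.mem_range]
          have a1 := Int.emod_nonneg v.re h2M.ne'
          have a2 := Int.emod_lt_of_pos v.re h2M
          have a3 := Int.emod_nonneg v.im h2M.ne'
          have a4 := Int.emod_lt_of_pos v.im h2M
          constructor
          · show (v.re % (M : ℕ)).toNat < M
            omega
          · show (v.im % (M : ℕ)).toNat < M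
            omega
        · have a1 := Int.toNat_of_nonneg (Int.emod_nonneg v.re h2M.ne')
          have a3 := Int.toNat_of_nonneg (Int.emod_nonneg v.im h2M.ne')
          exact ext' a1 a3
      · refine hNc v u ?_ hv
        rw [← neg_sub]
        exact (dvd_neg).2 hdM
    obtain ⟨T, h1, h2, h3⟩ := GRm_rep' (fun _ : OO k t => True)
      (fun v u : OO k t => UR (M : OO k t) v u) (fun x _ => UR.refl _ _) (fun x y _ _ h => h.symm)
      (fun x y z _ _ _ h h' => h.trans h') (W.filter (fun u => HN f N u)) (fun _ _ => trivial)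
    refine ⟨T, isRep_iff.2 ⟨fun h hh => (Finset.mem_filter.1 (h1 hh)).2, ?_, h3⟩⟩
    intro v hv
    obtain ⟨u, hu, hvu⟩ := hcov v hv
    obtain ⟨t', ht, htu⟩ := h2 u hu
    exact ⟨t', ht, (UR.of_dvd hvu).trans htu.symm⟩
  · -- the representatives `D`
    have hHPsp : ∀ v : OO k t, v ≠ 0 → Hf f v → HP f (sp v) := fun v hv hh => ⟨v, hv, hh, rfl7 _⟩
    have hc : ∀ b ∈ R, ∃ c : Ideal (OO k t), c ≠ ⊥ ∧ PrI c (3 * f) ∧
        ((3 : ℤ) ^ N ∣ (NI c : ℤ) - 1 ∨ (3 : ℤ) ^ N ∣ (NI c : ℤ) + 1) ∧ Ray (3 * f) b c := by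
      intro b hb
      have hb0 : b ≠ ⊥ := (hR.mem b hb).1
      have hb2f : PrI b (3 * f) := (hR.mem b hb).2
      have hb2 : (NI b).Coprime 3 := (o6co 3 b (by norm_num)).1 ((o6N 3 f b).1 hb2f).1
      have hν : ¬ (3 : ℤ) ∣ (NI b : ℤ) := by
        intro h
        have h1 : 3 ∣ NI b := by exact_mod_cast h
        have h2 := Nat.dvd_gcd h1 (dvd_refl 3)
        rw [hb2] at h2
        norm_num at h2
      obtain ⟨v, hv1, hvN⟩ := V0 hf.cop hN hν
      have hv1' : ((3 * f : ℕ) : OO k t) ∣ (v : OO k t) - 1 := by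
        obtain ⟨c, hc⟩ := hv1
        refine ⟨(c : OO k t), ?_⟩
        have h1 : ((v - 1 : ℤ) : OO k t) = (((3 * f : ℕ) * c : ℤ) : OO k t) := by rw [hc]
        push_cast at h1 ⊢
        exact h1
      have hvc : Cop (v : OO k t) (3 * f) := (hfc _ (hHf _ hv1'))
      have hv0 : (v : OO k t) ≠ 0 := by
        intro h
        rw [h] at hvc
        unfold Cop at hvc
        rw [Nm_zero, isCoprime_zero_left, Int.isUnit_iff] at hvc
        omega
      refine ⟨sp (v : OO k t) * b, ?_, ?_, ?_, ?_⟩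
      · exact mul_ne_zero (fun h => hv0 (Ideal.span_singleton_eq_bot.1 h)) hb0
      · rw [o6mul]
        exact ⟨(o6sp _ _ (by omega)).2 hvc, hb2f⟩
      · rw [o2mul, Nat.cast_mul, o2nm, Nm_int]
        exact hvN
      · have h1 : Ray (3 * f) (sp (1 : OO k t)) (sp (v : OO k t)) :=
          sym7 _ _ (sp7' v 1 hv0 one_ne_zero hvc (cop_one _) hv1')
        have h2 := mul7 _ _ _ _ h1 (rfl7 b)
        rwa [e1, tm] at h2
    choose! c hc0 hc2f hcN hcR using hc
    obtain ⟨D, h1, h2, h3⟩ := GRm_rep' (fun b : Ideal (OO k t) => b ≠ ⊥ ∧ PrI b (3 * f))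
      (fun b b' : Ideal (OO k t) => ∃ a : Ideal (OO k t), HP f a ∧ Ray (3 * f) b' (a * b))
      (fun x _ => ⟨sp 1, hHPsp 1 one_ne_zero hf1, by rw [e1, tm]; exact rfl7 _⟩)
      (fun x y _ _ h => by
        obtain ⟨a, ⟨v, hv0, hv, hav⟩, hr⟩ := h
        obtain ⟨u, hu0, huc, huv⟩ := cinv v (3 * f) hff (hfc v hv)
        have hu : Hf f u := hfinv v u hv huv
        refine ⟨sp u, hHPsp u hu0 hu, ?_⟩
        -- `sp u * y ~ sp u * (a * x) ~ sp u * (sp v * x) = sp (u v) * x ~ x`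
        have s1 : Ray (3 * f) (sp u * y) (sp u * (a * x)) := mul7 _ _ _ _ (rfl7 _) hr
        have s2 : Ray (3 * f) (sp u * (a * x)) (sp u * (sp v * x)) :=
          mul7 _ _ _ _ (rfl7 _) (mul7 _ _ _ _ hav (rfl7 _))
        have s3 : Ray (3 * f) (sp u * (sp v * x)) x := by
          rw [← mul_assoc, spm]
          have h0 : u * v ≠ 0 := mul_ne_zero hu0 hv0
          have s4 : Ray (3 * f) (sp (u * v)) (sp 1) :=
            sp7' _ _ h0 one_ne_zero (cop_mul huc (hfc v hv)) (cop_one _)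
              (by rw [mul_comm u v]; exact huv)
          have s5 := mul7 _ _ _ _ s4 (rfl7 x)
          rwa [e1, tm] at s5
        exact sym7 _ _ (tra7 _ _ _ s1 (tra7 _ _ _ s2 s3)))
      (fun x y z _ _ _ h h' => by
        obtain ⟨a, ⟨v, hv0, hv, hav⟩, hr⟩ := h
        obtain ⟨a', ⟨v', hv0', hv', hav'⟩, hr'⟩ := h'
        refine ⟨a' * a, ⟨v' * v, mul_ne_zero hv0' hv0, hfmul _ _ hv' hv, ?_⟩, ?_⟩
        · have s1 := mul7 _ _ _ _ hav' hav
          change Ray (3 * f) (a' * a) (sp v' * sp v) at s1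
          rw [spm] at s1
          exact s1
        · have s1 : Ray (3 * f) (a' * y) (a' * (a * x)) := mul7 _ _ _ _ (rfl7 _) hr
          have s2 := tra7 _ _ _ hr' s1
          rwa [← mul_assoc] at s2)
      (R.image c) (by
        intro y hy
        obtain ⟨b, hb, rfl⟩ := Finset.mem_image.1 hy
        exact ⟨hc0 b hb, hc2f b hb⟩)
    refine ⟨D, ⟨?_, ?_, h3⟩⟩
    · intro x hx
      obtain ⟨b, hb, rfl⟩ := Finset.mem_image.1 (h1 hx)
      exact ⟨hc0 b hb, hc2f b hb, hcN b hb⟩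
    · intro b hb0 hbf
      obtain ⟨b', hb', hbb'⟩ := hR.ex b hb0 hbf
      obtain ⟨t', ht, a, ha, hr⟩ := h2 (c b') (Finset.mem_image_of_mem c hb')
      exact ⟨t', ht, a, ha, tra7 _ _ _ (tra7 _ _ _ hbb' (hcR b' hb')) hr⟩

/-- **The systems of representatives exist.** -/
theorem aGR : S_GR := fun k t _ => aGRn k t

end Pool.Agent.DM.G
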