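import Pool.Agent.Lib.DM.G.Two
import Pool.Agent.Lib.DM.G.GMm
import Pool.Agent.Lib.DM.G.GRm
import Pool.Agent.Lib.DM.D.D5
import Pool.Agent.Lib.DM.D.D7
import Pool.Agent.Lib.DM.D.D8
import Pool.Agent.Lib.DM.B.All
import Pool.Agent.Lib.DM.E.All
import Pool.Agent.Lib.DS.E.AllZ

/-!
# Theorem DM, part G: `S_GR`, `S_GM`, `S_G3` without hypotheses (author helper21)
-/

set_option autoImplicit false

noncomputable section

namespace Pool.Agent.DM.G

open Pool.Agent.MuZ Pool.Agent.FW Pool.Agent.DN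

theorem zD5 : S_D5 := sD5 DS.zR1 DS.zGQ DS.zD1 DS.zLgK
theorem zD7 : S_D7 := sD7 DS.zXOm DS.zR1 DS.zGQ DS.zD1 DS.yD3
theorem zD8 : S_D8 := sD8 aB1 zR1 DS.zR1

/-- **The systems of representatives.** -/
theorem zGR : S_GR := aGR

/-- **The fields.** -/
theorem zGM : S_GM := aGM DS.zE1 DS.zE6 DS.zE8

/-- **The elliptic units.** -/
theorem zG3 : S_G3 := aG3 zD5 zD7 zD8 DS.zE1 (zE10 DS.zD1)

/-- The same for all imaginary quadratic fields. -/
theorem zGMn : C_GM := aGMn DS.zE1 DS.zE6 DS.zE8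
theorem zG3n : C_G3 := aG3n zD5 zD7 zD8 DS.zE1 (zE10 DS.zD1)

end Pool.Agent.DM.G
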