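import Pool.Agent.Lib.DM.G.UBb

/-!
# Theorem DM, part G, module CT: the constant of the distribution relation for `3`
-/

set_option autoImplicit false

open scoped Pointwise

noncomputable section

namespace Pool.Agent.DM.G

open Pool.Agent.MuZ Pool.Agent.FW Pool.Agent.DN
open Pool.Agent.DI (io ofC io_inj exists_io io_ofC ofC_io VP MP UP TP ex)

variable {k t : ℕ}

/-- The constant of the distribution relation for `3` is in `L'`. -/
def C_CT : Prop :=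
  ∀ (k t : ℕ) [SqN k t] (f : ℕ) (m b : Ideal (OO k t)), FM f m → b ≠ ⊥ → PrI b (3 * f) →
    ∃ C ∈ Mf k t f, C ≠ 0 ∧ ∀ R : Finset ℂ, IsSys (sp 3) b R → ∀ z : ℂ, Tor k t z →
      3 * z ∉ Lam (m * b) → ∏ v ∈ R, Theta m b (z + v) = C * Theta m b (3 * z)

/-- `C` is a constant of the distribution relation for `3` on the curve `ℂ / Lam c`. -/
private def CT_P (m c : Ideal (OO k t)) (C : Om) : Prop :=
  ∀ R : Finset ℂ, IsSys (sp 3) c R → ∀ z : ℂ, Tor k t z → 3 * z ∉ Lam (m * c) →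
    ∏ v ∈ R, Theta m c (z + v) = C * Theta m c (3 * z)

theorem toC_three : toC (3 : OO k t) = 3 := by
  have h := toC_nat (n := k) (t := t) 3
  push_cast at h
  exact h

/-- `3 / L` is not in `Lam c` if `c` contains an integer `x` such that `3 x` is not divisible by `L`. -/
private theorem CT_not [SqN k t] {c : Ideal (OO k t)} {x L : ℕ} (hL : 0 < L) (hx : (x : OO k t) ∈ c)
    (h : ¬ L ∣ 3 * x) : (3 * (1 / L) : ℂ) ∉ Lam c := by
  intro hz
  obtain ⟨u, hu⟩ := hz _ hx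
  have hL' : (L : ℂ) ≠ 0 := by exact_mod_cast hL.ne'
  have h1 : toC ((3 * x : ℕ) : OO k t) = toC ((L : OO k t) * u) := by
    rw [toC_mul, ← hu, toC_nat L, toC_nat x, toC_nat]
    push_cast
    field_simp
  have h2 := toC_inj h1
  have h3 : ((3 * x : ℕ) : ℤ) = L * u.re := by
    have h4 := congrArg QuadraticAlgebra.re h2
    rw [re_nat, re_mul, re_nat, im_nat] at h4
    rw [h4]
    ring
  have h5 : (L : ℤ) ∣ ((3 * x : ℕ) : ℤ) := ⟨u.re, h3⟩
  exact h (Int.natCast_dvd_natCast.1 h5)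

/-- `N a ∈ a`. -/
theorem NI_mem [SqN k t] (a : Ideal (OO k t)) : ((NI a : ℕ) : OO k t) ∈ a := by
  obtain ⟨-, -, h, -⟩ := aO3 k t
  have h1 : ((NI a : ℕ) : OO k t) ∈ sp ((NI a : ℕ) : OO k t) := Ideal.mem_span_singleton_self _
  rw [← (h a).2.2] at h1
  exact Ideal.mul_le_left h1

/-- `N a ≠ 0`. -/
theorem NI_pos [SqN k t] {a : Ideal (OO k t)} (ha : a ≠ ⊥) : 0 < NI a := by
  refine Nat.pos_of_ne_zero fun h => ha ?_
  exact ((aO2 k t).2.2.2.2.2.1 a).1 h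

private theorem CT_L {x : ℕ} (hx : 0 < x) : ∃ L : ℕ, L.Prime ∧ ¬ L ∣ x := by
  obtain ⟨L, hL, hp⟩ := Nat.exists_infinite_primes (x + 1)
  exact ⟨L, hp, fun h => by have := Nat.le_of_dvd hx h; omega⟩

private theorem CT_tor [SqN k t] {z : ℂ} (hz : Tor k t z) : Tor k t (3 * z) := by
  have := tor_mul (3 : OO k t) hz
  rwa [toC_three] at this

private theorem CT_one [SqN k t] {L : ℕ} (hL : 0 < L) : Tor k t (1 / L : ℂ) := by
  have := tor_div hL (1 : OO k t)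
  rwa [toC_one] at this

/-- A system of representatives of `Lam (3 b) / Lam b`. -/
private theorem CT_sys [SqN k t] {b : Ideal (OO k t)} (hb : b ≠ ⊥) :
    ∃ R : Finset ℂ, IsSys (sp (3 : OO k t)) b R := by
  have h30 : sp (3 : OO k t) ≠ ⊥ := by
    rw [Ne, Ideal.span_singleton_eq_bot]
    intro h
    have := congrArg toC h
    rw [toC_three, toC_zero] at this
    norm_num at this
  obtain ⟨-, -, R, hR, -⟩ := aL3 k t (sp 3) b h30 hb
  exact ⟨R, hR⟩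

private theorem CT_uni (D8 : S_D8) [SqN k t] {m c : Ideal (OO k t)} (hm : m ≠ ⊥)
    (hc : c ≠ ⊥) (hc30 : PrI c 30) (hm30 : PrI m 30) {C C' : Om} (h : CT_P m c C)
    (h' : CT_P m c C') : C = C' := by
  obtain ⟨R, hR⟩ := CT_sys hc
  obtain ⟨L, hL, hLx⟩ := CT_L (x := 3 * (NI m * NI c))
    (Nat.mul_pos (by norm_num) (Nat.mul_pos (NI_pos hm) (NI_pos hc)))
  have hz : Tor k t (1 / L : ℂ) := CT_one hL.pos
  have hz' : (3 * (1 / L) : ℂ) ∉ Lam (m * c) := CT_not hL.pos (by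
    push_cast
    exact Ideal.mul_mem_mul (NI_mem m) (NI_mem c)) hLx
  have e1 := h R hR _ hz hz'
  have e2 := h' R hR _ hz hz'
  rw [e1] at e2
  exact mul_right_cancel₀ ((th_facts D8 hm hc hm30).2.2 hc30 _ (CT_tor hz) hz') e2

/-- The constants for `c` and `γ c` agree. -/
private theorem CT_sp (D8 : S_D8) [SqN k t] {m b : Ideal (OO k t)} (hm : m ≠ ⊥) (hb : b ≠ ⊥)
    (hm30 : PrI m 30) {γ : OO k t} (hγ : γ ≠ 0) {C : Om} (h : CT_P m b C) :
    CT_P m (sp γ * b) C := by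
  classical
  intro R hR z hz hz'
  obtain ⟨-, h3, -⟩ := th_facts D8 hm hb hm30
  have hγC : toC γ ≠ 0 := fun h0 => hγ (toC_inj (by rw [h0, toC_zero]))
  have hinj : Function.Injective (fun v : ℂ => toC γ * v) := fun x y hxy => mul_left_cancel₀ hγC hxy
  have comm : ∀ I : Ideal (OO k t), I * (sp γ * b) = sp γ * (I * b) := fun I => mul_left_comm _ _ _
  have hR' : IsSys (sp 3) b (R.image (fun v : ℂ => toC γ * v)) := by
    refine ⟨?_, ?_, ?_⟩
    · intro u hu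
      obtain ⟨v, hv, rfl⟩ := Finset.mem_image.1 hu
      have h1 := hR.mem v hv
      rw [comm, lam_sp] at h1
      exact h1
    · intro z' hz'
      have h1 : (toC γ)⁻¹ * z' ∈ Lam (sp (3 : OO k t) * (sp γ * b)) := by
        rw [comm, lam_sp, mul_inv_cancel_left₀ hγC]
        exact hz'
      obtain ⟨u, hu, hu'⟩ := hR.ex _ h1
      refine ⟨toC γ * u, Finset.mem_image_of_mem _ hu, ?_⟩
      rw [lam_sp, mul_sub, mul_inv_cancel_left₀ hγC] at hu'
      exact hu'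
    · intro u hu u' hu' huu
      obtain ⟨v, hv, rfl⟩ := Finset.mem_image.1 hu
      obtain ⟨v', hv', rfl⟩ := Finset.mem_image.1 hu'
      have h1 : v - v' ∈ Lam (sp γ * b) := by
        rw [lam_sp, mul_sub]
        exact huu
      have h2 := hR.uni v hv v' hv' h1
      rw [h2]
  have e1 : toC γ * (3 * z) = 3 * (toC γ * z) := by ring
  have hzγ : 3 * (toC γ * z) ∉ Lam (m * b) := by
    rw [comm, lam_sp, e1] at hz'
    exact hz'
  have h4 := h _ hR' (toC γ * z) (tor_mul γ hz) hzγ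
  rw [Finset.prod_image (fun x _ y _ hxy => hinj hxy)] at h4
  rw [h3 γ _ hγ, e1, ← h4]
  refine Finset.prod_congr rfl fun v _ => ?_
  rw [h3 γ _ hγ, mul_add]

/-- Galois action on the constants. -/
private theorem CT_gal (D8 : S_D8) (E10 : S_E10)
    [SqN k t] {m b : Ideal (OO k t)} (hm : m ≠ ⊥) (hb : b ≠ ⊥) (hb30 : PrI b 30)
    (hm30 : PrI m 30) {L : ℕ} (hL : L.Prime)
    (hLx : ¬ L ∣ 3 * (NI m * NI b)) {τ : Gal(Om/ℚ)} {a : Ideal (OO k t)}
    (ha : Psi τ (60 * (NI m * L)) a) {C C' : Om} (h : CT_P m b C)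
    (h' : CT_P m (a * b) C') : τ C = C' := by
  obtain ⟨o1, o2, o3, -, -⟩ := aO6 k t
  obtain ⟨R, hR⟩ := CT_sys hb
  have hM0 : 0 < 60 * (NI m * L) := Nat.mul_pos (by norm_num) (Nat.mul_pos (NI_pos hm) hL.pos)
  have hab : a * b ≠ ⊥ := mul_ne_zero ha.ne hb
  have hz : Tor k t (1 / L : ℂ) := CT_one hL.pos
  have hz1 : (3 * (1 / L) : ℂ) ∉ Lam (m * b) := CT_not hL.pos (by
    push_cast
    exact Ideal.mul_mem_mul (NI_mem m) (NI_mem b)) hLx
  -- `a` is prime to `L` and to `3`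
  have haM : PrI a (60 * (NI m * L)) := ((o2 15 _ a).1 ha.cop).2
  have haL : (NI a).Coprime L :=
    (o3 L a hL.pos).1 (pri_dvd ⟨60 * NI m, by ring⟩ haM)
  have ha3 : PrI a 3 := pri_dvd ⟨20 * (NI m * L), by ring⟩ haM
  have ha30 : PrI a 30 := pri_dvd ⟨2 * (NI m * L), by ring⟩ haM
  have hLx' : ¬ L ∣ 3 * (NI m * (NI a * NI b)) := by
    intro hd
    have h1 : L ∣ NI a * (3 * (NI m * NI b)) := by
      have e : NI a * (3 * (NI m * NI b)) = 3 * (NI m * (NI a * NI b)) := by ring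
      rw [e]
      exact hd
    exact hLx (haL.symm.dvd_of_dvd_mul_left h1)
  have hz2 : (3 * (1 / L) : ℂ) ∉ Lam (m * (a * b)) := by
    refine CT_not hL.pos ?_ hLx'
    push_cast
    exact Ideal.mul_mem_mul (NI_mem m) (Ideal.mul_mem_mul (NI_mem a) (NI_mem b))
  -- `R` is a system of representatives for `a b`
  obtain ⟨l1, l2⟩ := aL5 k t a b 3 ha.ne hb (by norm_num) ha3
  have h3l : ∀ (c : Ideal (OO k t)) (z : ℂ), z ∈ Lam (sp (3 : OO k t) * c) ↔ ((3 : ℕ) : ℂ) * z ∈ Lam c := by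
    intro c z
    rw [lam_sp, toC_three]
    norm_num
  have hR' : IsSys (sp 3) (a * b) R := by
    refine ⟨?_, ?_, ?_⟩
    · intro u hu
      rw [mul_left_comm]
      exact lam_mono (hR.mem u hu)
    · intro z' hz'
      obtain ⟨z'', h1, h2⟩ := l2 z' ((h3l _ _).1 hz')
      obtain ⟨u, hu, h3⟩ := hR.ex z'' ((h3l _ _).2 h1)
      refine ⟨u, hu, ?_⟩
      have h4 := lam_add h2 (lam_mono (a := a) h3)
      have e : z' - z'' + (z'' - u) = z' - u := by ring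
      rw [e] at h4
      exact h4
    · intro u hu u' hu' huu
      exact hR.uni u hu u' hu' (l1 _ ((h3l _ _).1 (lam_sub (hR.mem u hu) (hR.mem u' hu'))) huu)
  -- the points
  have hL' : (L : ℂ) ≠ 0 := by exact_mod_cast hL.pos.ne'
  have hzn : ((60 * (NI m * L) : ℕ) : ℂ) * (1 / L : ℂ) ∈ Lam b := by
    have e : ((60 * (NI m * L) : ℕ) : ℂ) * (1 / L : ℂ) = toC ((60 * NI m : ℕ) : OO k t) := by
      rw [toC_nat]
      push_cast
      field_simp
    rw [e]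
    exact lam_toC b _
  have hvn : ∀ v ∈ R, ((60 * (NI m * L) : ℕ) : ℂ) * v ∈ Lam b := by
    intro v hv
    have h1 := (h3l _ _).1 (hR.mem v hv)
    have h2 := lam_nat (20 * (NI m * L)) h1
    have e : ((20 * (NI m * L) : ℕ) : ℂ) * (((3 : ℕ) : ℂ) * v) = ((60 * (NI m * L) : ℕ) : ℂ) * v := by
      push_cast
      ring
    rwa [e] at h2
  obtain ⟨-, -, e10⟩ := E10 k t τ _ a hM0 ⟨NI m * L, rfl⟩ ha
  have hnm : NI m ∣ 60 * (NI m * L) := ⟨60 * L, by ring⟩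
  have e1 := congrArg τ (h R hR _ hz hz1)
  rw [map_prod, map_mul, (e10 m b hm ⟨hb, hb30⟩ hm30 hnm (3 * (1 / L : ℂ)) (by
    have e : ((60 * (NI m * L) : ℕ) : ℂ) * (3 * (1 / L : ℂ)) =
        ((3 : ℕ) : ℂ) * (((60 * (NI m * L) : ℕ) : ℂ) * (1 / L : ℂ)) := by
      push_cast
      ring
    rw [e]
    exact lam_nat _ hzn)).2] at e1
  have e2 := h' R hR' _ hz hz2
  have e3 : ∏ v ∈ R, τ (Theta m b (1 / L + v)) = ∏ v ∈ R, Theta m (a * b) (1 / L + v) :=
    Finset.prod_congr rfl fun v hv => (e10 m b hm ⟨hb, hb30⟩ hm30 hnm _ (by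
      rw [mul_add]
      exact lam_add hzn (hvn v hv))).2
  rw [e3, e2] at e1
  exact (mul_right_cancel₀ ((th_facts D8 hm hab hm30).2.2 ((o1 30 a b).2 ⟨ha30, hb30⟩) _
    (CT_tor hz) hz2) e1).symm

theorem aCT (D7 : S_D7) (D8 : S_D8) (E1 : DS.S_E1) (E10 : S_E10) : C_CT := by
  intro k t _ f m b hm hb hb3
  have h60f : 60 ∣ 3 * f := by
    obtain ⟨c, hc⟩ := hm.dvd
    exact ⟨c, by rw [hc]; ring⟩
  have h30f : 30 ∣ 3 * f := (by norm_num : 30 ∣ 60).trans h60f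
  have h15f : 15 ∣ 3 * f := (by norm_num : 15 ∣ 60).trans h60f
  have h3f0 : 0 < 3 * f := Nat.mul_pos (by norm_num) hm.pos
  have hm30 : PrI m 30 := pri_dvd h30f hm.prm
  have hb30 : PrI b 30 := pri_dvd h30f hb3
  obtain ⟨C, hC, hCP⟩ := (D7 k t m b hm.ne ⟨hb, hb30⟩ hm30).2
  refine ⟨C, ?_, hC, hCP⟩
  intro τ hτ a₀ ha₀ hH
  obtain ⟨v, hv0, hvH, hv⟩ := hH
  obtain ⟨L, hL, hLx⟩ := CT_L (x := 3 * (NI m * NI b))
    (Nat.mul_pos (by norm_num) (Nat.mul_pos (NI_pos hm.ne) (NI_pos hb)))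
  have hM0 : 0 < 3 * f * (NI m * L) := Nat.mul_pos h3f0 (Nat.mul_pos (NI_pos hm.ne) hL.pos)
  have hM15 : 15 ∣ 3 * f * (NI m * L) := h15f.mul_right _
  obtain ⟨e1, -, -, -, e5⟩ := E1 k t _ hM0 hM15
  obtain ⟨a, ha⟩ := e1 τ hτ
  have haF : Psi τ (3 * f) a := e5 τ _ a ha (dvd_mul_right _ _) h15f
  have han : Psi τ (60 * (NI m * L)) a :=
    e5 τ _ a ha (mul_dvd_mul_right h60f _) ((by norm_num : 15 ∣ 60).mul_right _)
  have hR1 : Ray (3 * f) a₀ a := (E1 k t _ h3f0 h15f).2.1 τ a₀ a ha₀ haF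
  obtain ⟨-, r2, r3, -⟩ := aO7 k t _ h3f0
  obtain ⟨α, α', hα, hα', hαc, hαc', -, hαα⟩ := r3 _ _ _ (r2 _ _ hR1) hv
  have ha30 : PrI a 30 :=
    pri_dvd (((by norm_num : 30 ∣ 60)).mul_right _) (((aO6 k t).2.1 15 _ a).1 han.cop).2
  have hab30 : PrI (a * b) 30 := ((aO6 k t).1 30 a b).2 ⟨ha30, hb30⟩
  obtain ⟨C', -, hCP'⟩ := (D7 k t m (a * b) hm.ne ⟨mul_ne_zero ha.ne hb, hab30⟩ hm30).2
  have h1 := CT_gal D8 E10 hm.ne hb hb30 hm30 hL hLx han hCP hCP'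
  have h2 := CT_sp D8 hm.ne (mul_ne_zero ha.ne hb : a * b ≠ ⊥) hm30 hα hCP'
  have hα'v : α' * v ≠ 0 := mul_ne_zero hα' hv0
  have h3 := CT_sp D8 hm.ne hb hm30 hα'v hCP
  have e : sp α * (a * b) = sp (α' * v) * b := by
    rw [← mul_assoc]
    change Ideal.span {α} * a * b = _
    rw [hαα]
    change sp α' * sp v * b = _
    rw [show sp α' * sp v = sp (α' * v) from Ideal.span_singleton_mul_span_singleton _ _]
  rw [e] at h2
  have hne : sp (α' * v) * b ≠ ⊥ := by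
    refine mul_ne_zero ?_ hb
    rw [Ne, Ideal.zero_eq_bot, Ideal.span_singleton_eq_bot]
    exact hα'v
  have hc30 : PrI (sp (α' * v) * b) 30 := by
    refine ((aO6 k t).1 30 _ b).2 ⟨((aO6 k t).2.2.2.1 30 _ (by norm_num)).2 ?_, hb30⟩
    exact cop_mul (cop_dvd hαc' h30f) (cop_dvd hvH.1 h30f)
  rw [h1]
  exact CT_uni D8 hm.ne hne hc30 hm30 h2 h3

end Pool.Agent.DM.G
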