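import Pool.Agent.Lib.DM.IfaceG
import Pool.Agent.Lib.DS.G.All

/-!
# Theorem DM, part G, module HNf: the groups `H_f`, `H_N` modulo powers of `3` (author helper21, after `DS/G/HNf.lean`)

All imaginary quadratic fields (`[SqN k t]`).
-/

set_option autoImplicit false

open scoped Pointwise

noncomputable section

namespace Pool.Agent.DM.G

open Pool.Agent.MuZ Pool.Agent.FW Pool.Agent.DN
open Pool.Agent.DI (io ofC io_inj exists_io io_ofC ofC_io VP MP UP TP ex)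

variable {k t : ℕ}

theorem isRep_iff {f N : ℕ} {T : Finset (OO k t)} :
    IsRep f N T ↔ DS.G.IsRp (f * 3 ^ N) (fun v => HN f N v) T :=
  ⟨fun h => ⟨h.mem, fun v hv => h.ex v hv, fun x hx y hy ⟨e, he, hd⟩ => h.uni x hx y hy e he hd⟩,
    fun h => ⟨h.mem, fun v h1 => h.ex v h1, fun x hx y hy e he hd => h.uni x hx y hy ⟨e, he, hd⟩⟩⟩

/-- The ideals prime to `3 f` with norm `± 1` modulo `3 ^ N`. -/
def CN (f N : ℕ) (b : Ideal (OO k t)) : Prop :=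
  b ≠ ⊥ ∧ PrI b (3 * f) ∧ ((3 : ℤ) ^ N ∣ (NI b : ℤ) - 1 ∨ (3 : ℤ) ^ N ∣ (NI b : ℤ) + 1)

/-- The groups `H_f`, `H_N`. -/
def C_HNf : Prop :=
  ∀ (k t : ℕ) [SqN k t] (f N : ℕ), 1 ≤ N →
    (Hf f (1 : OO k t) ∧ HN f N (1 : OO k t)) ∧
    (∀ v u : OO k t, Hf f v → Hf f u → Hf f (v * u)) ∧
    (∀ v u : OO k t, HN f N v → HN f N u → HN f N (v * u)) ∧
    (∀ v u : OO k t, ((3 * f : ℕ) : OO k t) ∣ u - v → Hf f v → Hf f u) ∧
    (∀ v u : OO k t, ((f * 3 ^ N : ℕ) : OO k t) ∣ u - v → HN f N v → HN f N u) ∧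
    (∀ v u : OO k t, Hf f v → ((3 * f : ℕ) : OO k t) ∣ v * u - 1 → Hf f u) ∧
    (∀ v u : OO k t, HN f N v → ((f * 3 ^ N : ℕ) : OO k t) ∣ v * u - 1 → HN f N u) ∧
    (∀ v : OO k t, Hf f v → Cop v (3 * f)) ∧ (∀ v : OO k t, HN f N v → Cop v (f * 3 ^ N)) ∧
    (∀ v : OO k t, HN f (N + 1) v → HN f N v) ∧
    (∀ v : OO k t, ((3 * f : ℕ) : OO k t) ∣ v - 1 → Hf f v) ∧
    (∀ v : OO k t, Cop v (f * 3 ^ N) → Cop v (3 * f)) ∧
    (∀ v : OO k t, Cop v (3 * f) → Cop v (f * 3 ^ N)) ∧ (3 * f ∣ f * 3 ^ N)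

private theorem nmod3 (v u : OO k t) (N : ℕ) (h : ((3 ^ N : ℕ) : OO k t) ∣ v - u) :
    (3 : ℤ) ^ N ∣ Nm v - Nm u := by
  have := Nm_congr h
  exact_mod_cast this

private theorem pw_one {a v : OO k t} (j : ℕ) (h : a ∣ v - 1) : a ∣ v ^ j - 1 := by
  have := sub_dvd_pow_sub_pow v 1 j
  rw [one_pow] at this
  exact h.trans this

private theorem hmul (f : ℕ) (v u : OO k t) (hv : Hf f v) (hu : Hf f u) : Hf f (v * u) := by
  obtain ⟨hv1, j, hj⟩ := hv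
  obtain ⟨hu1, l, hl⟩ := hu
  refine ⟨cop_mul hv1 hu1, j + l, ?_⟩
  have h1 : (v * u) ^ 3 ^ (j + l) - 1 =
      ((v ^ 3 ^ j) ^ 3 ^ l - 1) * (u ^ 3 ^ l) ^ 3 ^ j + ((u ^ 3 ^ l) ^ 3 ^ j - 1) := by
    rw [mul_pow, pow_add, pow_mul, mul_comm (3 ^ j) (3 ^ l), pow_mul u]
    ring
  rw [h1]
  exact dvd_add (Dvd.dvd.mul_right (pw_one _ hj) _) (pw_one _ hl)

private theorem hmulN (f N : ℕ) (v u : OO k t) (hv : HN f N v) (hu : HN f N u) :
    HN f N (v * u) := by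
  refine ⟨hmul f v u hv.1 hu.1, ?_⟩
  rw [Nm_mul]
  have h1 : Nm v * Nm u - 1 = (Nm v - 1) * Nm u + (Nm u - 1) := by ring
  rw [h1]
  exact dvd_add (Dvd.dvd.mul_right hv.2 _) hu.2

private theorem neg_dvd {a v u : OO k t} (h : a ∣ v - u) : a ∣ u - v := by
  rw [← neg_sub]
  exact (dvd_neg).2 h

private theorem hcongr (f : ℕ) (v u : OO k t) (h : ((3 * f : ℕ) : OO k t) ∣ u - v) (hv : Hf f v) :
    Hf f u := by
  obtain ⟨hv1, j, hj⟩ := hv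
  refine ⟨cop_congr (neg_dvd h) hv1, j, ?_⟩
  have h1 : u ^ 3 ^ j - 1 = (u ^ 3 ^ j - v ^ 3 ^ j) + (v ^ 3 ^ j - 1) := by ring
  rw [h1]
  exact dvd_add (Dvd.dvd.trans h (sub_dvd_pow_sub_pow u v _)) hj

private theorem dvd_n (f : ℕ) {N : ℕ} (hN : 1 ≤ N) : 3 * f ∣ f * 3 ^ N := by
  rw [mul_comm]
  exact mul_dvd_mul_left f (dvd_pow_self 3 (by omega))

private theorem dvd_l (f : ℕ) {N : ℕ} (hN : 1 ≤ N) :
    ((3 * f : ℕ) : OO k t) ∣ ((f * 3 ^ N : ℕ) : OO k t) :=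
  Nat.cast_dvd_cast (dvd_n f hN)

private theorem dvd_r (f N : ℕ) : ((3 ^ N : ℕ) : OO k t) ∣ ((f * 3 ^ N : ℕ) : OO k t) :=
  Nat.cast_dvd_cast (dvd_mul_left _ _)

private theorem hcongrN (f : ℕ) {N : ℕ} (hN : 1 ≤ N) (v u : OO k t)
    (h : ((f * 3 ^ N : ℕ) : OO k t) ∣ u - v) (hv : HN f N v) : HN f N u := by
  refine ⟨hcongr f v u ((dvd_l f hN).trans h) hv.1, ?_⟩
  have h3 := nmod3 u v N ((dvd_r f N).trans h)
  have : Nm u - 1 = (Nm u - Nm v) + (Nm v - 1) := by ring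
  rw [this]
  exact dvd_add h3 hv.2

private theorem hone (f : ℕ) : Hf f (1 : OO k t) := by
  refine ⟨cop_one _, 0, ?_⟩
  rw [one_pow, sub_self]
  exact dvd_zero _

private theorem hinv (f : ℕ) (v u : OO k t) (hv : Hf f v)
    (h : ((3 * f : ℕ) : OO k t) ∣ v * u - 1) : Hf f u := by
  obtain ⟨hv1, j, hj⟩ := hv
  refine ⟨?_, j, ?_⟩
  · have h1 : Cop (v * u) (3 * f) := cop_congr (neg_dvd h) (cop_one _)
    unfold Cop at h1 ⊢
    rw [Nm_mul] at h1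
    exact (IsCoprime.mul_left_iff.1 h1).2
  · have h1 : u ^ 3 ^ j - 1 = ((v * u) ^ 3 ^ j - 1) - (v ^ 3 ^ j - 1) * u ^ 3 ^ j := by
      rw [mul_pow]
      ring
    rw [h1]
    exact dvd_sub (pw_one _ h) (Dvd.dvd.mul_right hj _)

private theorem hinvN (f : ℕ) {N : ℕ} (hN : 1 ≤ N) (v u : OO k t) (hv : HN f N v)
    (h : ((f * 3 ^ N : ℕ) : OO k t) ∣ v * u - 1) : HN f N u := by
  refine ⟨hinv f v u hv.1 ((dvd_l f hN).trans h), ?_⟩
  have h1 := nmod3 (v * u) 1 N ((dvd_r f N).trans h)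
  rw [Nm_mul, Nm_one] at h1
  have h2 : Nm u - 1 = (Nm v * Nm u - 1) - (Nm v - 1) * Nm u := by ring
  rw [h2]
  exact dvd_sub h1 (Dvd.dvd.mul_right hv.2 _)

private theorem hcopN (f N : ℕ) (v : OO k t) (hv : HN f N v) : Cop v (f * 3 ^ N) := by
  have h0 : IsCoprime (Nm v) (f : ℤ) := cop_dvd hv.1.1 (dvd_mul_left f 3)
  unfold Cop
  push_cast
  refine IsCoprime.mul_right h0 ?_
  obtain ⟨y, hy⟩ := hv.2
  exact ⟨1, -y, by linear_combination hy⟩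

private theorem hcopR (v : OO k t) (M M' : ℕ) : Cop v (M * M') ↔ Cop v M ∧ Cop v M' := by
  unfold Cop
  rw [Nat.cast_mul, IsCoprime.mul_right_iff]

theorem tHNf : C_HNf := by
  intro k t _ f N hN
  refine ⟨⟨hone f, hone f, ?_⟩, hmul f, hmulN f N,
    fun v u h hv => hcongr f v u h hv, fun v u h hv => hcongrN f hN v u h hv,
    fun v u hv h => hinv f v u hv h, fun v u hv h => hinvN f hN v u hv h,
    fun v hv => hv.1, fun v hv => hcopN f N v hv, fun v hv => ⟨hv.1, ?_⟩,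
    fun v h => hcongr f 1 v h (hone f), ?_, ?_, dvd_n f hN⟩
  · rw [Nm_one, sub_self]
    exact dvd_zero _
  · exact (pow_dvd_pow _ (Nat.le_succ N)).trans hv.2
  · intro v hv
    exact cop_dvd hv (dvd_n f hN)
  · intro v hv
    rw [hcopR] at hv ⊢
    refine ⟨hv.2, ?_⟩
    have h1 := hv.1
    unfold Cop at h1 ⊢
    rw [Nat.cast_pow]
    exact h1.pow_right

theorem aHNf : C_HNf := tHNf

end Pool.Agent.DM.G
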