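import Pool.Agent.Lib.DM.IfaceC
import Pool.Agent.Lib.DM.C.Frb
import Pool.Agent.Lib.DM.G.HNf

/-!
# Theorem DM, part G, module ChT: the types of the characters (`3` inert)
-/

set_option autoImplicit false

open scoped Pointwise

noncomputable section

namespace Pool.Agent.DM.G

open Pool.Agent.MuZ Pool.Agent.FW Pool.Agent.DN
open Pool.Agent.DI (io ofC io_inj exists_io io_ofC ofC_io VP MP UP TP ex)

variable {n t : ℕ}

/-- The type, as an equality: `χ((v)) = zt(v)^j`. -/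
def TyZ (P : Ideal ZZ) (f : ℕ) (χ : Ideal (OO n t) → Om) (j : ℕ) : Prop :=
  ∀ v : OO n t, (f : OO n t) ∣ v - 1 → Cop v 3 → χ (sp v) = zt P v ^ j

/-- `χ ⊤ = 1`, `χ b ^ m = 1`. -/
theorem chi_top [SqN n t] {N : ℕ} (_ : 0 < N) {χ : Ideal (OO n t) → Om} (h : IsChi N χ) :
    χ ⊤ = 1 := by
  obtain ⟨m, hm, hm2⟩ := h.cop
  have h1 := h.mul ⊤ ⊤
  rw [Ideal.top_mul] at h1
  have h2 : PrI (⊤ : Ideal (OO n t)) N := by
    unfold PrI
    exact top_sup_eq _
  have h3 := hm2 ⊤ (by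
    intro h0
    have h4 : (1 : OO n t) ∈ (⊥ : Ideal (OO n t)) := by
      rw [← h0]
      exact Submodule.mem_top
    exact one_ne_zero (Ideal.mem_bot.1 h4)) h2
  have h4 : χ ⊤ ≠ 0 := by
    intro h0
    rw [h0, zero_pow] at h3
    · exact zero_ne_one h3
    · rintro rfl
      norm_num at hm
  have h5 : χ ⊤ * (χ ⊤ - 1) = 0 := by linear_combination -h1
  rcases mul_eq_zero.1 h5 with h6 | h6
  · exact absurd h6 h4
  · linear_combination h6

/-- Powers. -/
theorem chi_pow [SqN n t] {N : ℕ} (hN : 0 < N) {χ : Ideal (OO n t) → Om} (h : IsChi N χ) (v : OO n t)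
    (i : ℕ) : χ (sp (v ^ i)) = χ (sp v) ^ i := by
  have spm : ∀ v u : OO n t, sp v * sp u = sp (v * u) := fun v u =>
    Ideal.span_singleton_mul_span_singleton v u
  induction i with
  | zero =>
    rw [pow_zero, pow_zero, show sp (1 : OO n t) = ⊤ from Ideal.span_singleton_one]
    exact chi_top hN h
  | succ i ih =>
    rw [pow_succ, ← spm, h.mul, ih, pow_succ]

/-- `MP P 3`, reduction. -/
theorem tp_mp {P : Ideal ZZ} [P.IsPrime] (h3 : MP P 3) {x : Om} (h : TP P 3 x) : MP P x := by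
  obtain ⟨y, hy, rfl⟩ := h
  exact DI.MP.mul_right h3 hy

theorem tyZ_ty (h0 : S_T0) [Ine3 n t] {P : Ideal ZZ} (hP : Ab3 P) {f : ℕ} {χ : Ideal (OO n t) → Om}
    {j : ℕ} (h : TyZ P f χ j) : Ty P f χ j := by
  have : P.IsPrime := hP.1.1
  intro v hv hc
  obtain ⟨z1, z2, -⟩ := (h0.2 n t P hP v v).2 hc hc
  rw [h v hv hc]
  have h1 : MP P (zt P v - toO v) := tp_mp hP.2 z2
  have hz : VP P (zt P v) := DI.VP.of_pow (n := 8) (by norm_num) (by rw [z1]; exact DI.VP.one)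
  have ht : VP P (toO v) := by
    have e : toO v = zt P v - (zt P v - toO v) := by ring
    rw [e]
    exact hz.sub h1.vp
  induction j with
  | zero =>
    rw [pow_zero, pow_zero, sub_self]
    exact DI.MP.zero
  | succ j ih =>
    have ih' : MP P (zt P v ^ j - toO v ^ j) := by
      clear ih h
      induction j with
      | zero =>
        rw [pow_zero, pow_zero, sub_self]
        exact DI.MP.zero
      | succ j ih =>
        have e : zt P v ^ (j + 1) - toO v ^ (j + 1) =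
            zt P v * (zt P v ^ j - toO v ^ j) + (zt P v - toO v) * toO v ^ j := by ring
        rw [e]
        exact (DI.MP.mul_left hz ih).add (DI.MP.mul_right h1 (ht.pow j))
    have e : zt P v ^ (j + 1) - toO v ^ (j + 1) =
        zt P v * (zt P v ^ j - toO v ^ j) + (zt P v - toO v) * toO v ^ j := by ring
    rw [e]
    exact (DI.MP.mul_left hz ih').add (DI.MP.mul_right h1 (ht.pow j))

/-- `oN` on principal ideals. -/
theorem oN_sp (h0 : S_T0) [Ine3 n t] {P : Ideal ZZ} (hP : Ab3 P) {v : OO n t} (hc : Cop v 3) :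
    oN (sp v) = zt P v ^ 4 := by
  obtain ⟨-, -, -, -, z5, z6, -⟩ := (h0.2 n t P hP v v).2 hc hc
  have h1 : (NI (sp v) : ℤ) = Nm v := (aO2 n t).2.2.2.1 v
  obtain ⟨-, -, f3, -⟩ := C.tFrb n t
  unfold oN
  rcases (f3 v hc).2 with h | h
  · rw [z5.2 h, if_pos (by omega)]
  · rw [z6.2 h, if_neg (by omega), if_pos (by omega)]

/-- `oN` is multiplicative; its square is `1` on the ideals prime to `3`. -/
theorem oN_mul [SqN n t] (a b : Ideal (OO n t)) : oN (a * b) = oN a * oN b := by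
  have h1 : NI (a * b) = NI a * NI b := (aO2 n t).2.2.2.2.1 a b
  have h2 : NI (a * b) % 3 = ((NI a % 3) * (NI b % 3)) % 3 := by rw [h1, Nat.mul_mod]
  have ha : NI a % 3 = 0 ∨ NI a % 3 = 1 ∨ NI a % 3 = 2 := by omega
  have hb : NI b % 3 = 0 ∨ NI b % 3 = 1 ∨ NI b % 3 = 2 := by omega
  unfold oN
  rw [h2]
  rcases ha with h | h | h <;> rcases hb with h' | h' | h' <;> rw [h, h'] <;> norm_num

theorem oN_sq [SqN n t] {a : Ideal (OO n t)} {f : ℕ} (h : PrI a (3 * f)) : oN a ^ 2 = 1 := by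
  have h1 : PrI a 3 := (((aO6 n t).2.1 3 f a).1 h).1
  have h2 : (NI a).Coprime 3 := ((aO6 n t).2.2.1 3 a (by norm_num)).1 h1
  have h3 : NI a % 3 = 1 ∨ NI a % 3 = 2 := by
    have h4 : ¬ 3 ∣ NI a := by
      intro h5
      have h6 := Nat.dvd_gcd h5 (dvd_refl 3)
      rw [h2] at h6
      norm_num at h6
    omega
  unfold oN
  rcases h3 with h | h <;> rw [h] <;> norm_num

theorem oN_ray [SqN n t] {f : ℕ} (hf : 0 < f) {a b : Ideal (OO n t)} (ha : PrI a (3 * f))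
    (hb : PrI b (3 * f)) (h : Ray (3 * f) a b) : oN a = oN b := by
  have h1 := aO9 n t (3 * f) (by omega) a b ha hb h
  have h2 : (3 : ℤ) ∣ (NI a : ℤ) - NI b := by
    refine dvd_trans ⟨(f : ℤ), ?_⟩ h1
    push_cast
    ring
  have h3 : NI a % 3 = NI b % 3 := by omega
  unfold oN
  rw [h3]

/-- The character `χ oN`. -/
theorem chi_oN [SqN n t] {f : ℕ} (hf : 0 < f) {χ : Ideal (OO n t) → Om} (h : IsChi (3 * f) χ) :
    IsChi (3 * f) (fun b => χ b * oN b) := by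
  refine ⟨?_, ?_, ?_, ?_⟩
  · intro b hb
    change χ b * oN b = 0
    rw [h.zero b hb, zero_mul]
  · intro b b' h1 h2 h3 h4 h5
    change χ b * oN b = χ b' * oN b'
    rw [h.ray b b' h1 h2 h3 h4 h5, oN_ray hf h3 h4 h5]
  · intro a b
    change χ (a * b) * oN (a * b) = χ a * oN a * (χ b * oN b)
    rw [h.mul, oN_mul]
    ring
  · obtain ⟨m, hm, hm2⟩ := h.cop
    refine ⟨2 * m, Nat.Coprime.mul_left (by norm_num) hm, ?_⟩
    intro b h1 h2
    change (χ b * oN b) ^ (2 * m) = 1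
    rw [mul_pow, mul_comm 2 m, pow_mul, hm2 b h1 h2, one_pow, mul_comm m 2, pow_mul, oN_sq h2, one_pow,
      one_mul]

/-- The character `χ³`. -/
theorem chi_cube [SqN n t] {N : ℕ} {χ : Ideal (OO n t) → Om} (h : IsChi N χ) :
    IsChi N (fun b => χ b ^ 3) := by
  refine ⟨?_, ?_, ?_, ?_⟩
  · intro b hb
    change χ b ^ 3 = 0
    rw [h.zero b hb]
    ring
  · intro b b' h1 h2 h3 h4 h5
    change χ b ^ 3 = χ b' ^ 3
    rw [h.ray b b' h1 h2 h3 h4 h5]
  · intro a b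
    change χ (a * b) ^ 3 = χ a ^ 3 * χ b ^ 3
    rw [h.mul]
    ring
  · obtain ⟨m, hm, hm2⟩ := h.cop
    refine ⟨m, hm, ?_⟩
    intro b h1 h2
    change (χ b ^ 3) ^ m = 1
    rw [← pow_mul, mul_comm, pow_mul, hm2 b h1 h2, one_pow]

/-- The values of a character are units or `0`. -/
theorem chi_vp [SqN n t] {N : ℕ} {χ : Ideal (OO n t) → Om} (h : IsChi N χ) {P : Ideal ZZ}
    [P.IsPrime] (b : Ideal (OO n t)) : VP P (χ b) := by
  by_cases hb : b = ⊥ ∨ ¬ PrI b N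
  · rw [h.zero b hb]
    exact DI.VP.zero
  · push Not at hb
    obtain ⟨m, hm, hm2⟩ := h.cop
    have hm0 : 0 < m := by
      rcases Nat.eq_zero_or_pos m with h0 | h0
      · rw [h0] at hm
        norm_num at hm
      · exact h0
    exact DI.VP.of_pow hm0 (by rw [hm2 b hb.1 hb.2]; exact DI.VP.one)

/-- **Every character has a type.** -/
theorem chT (h0 : S_T0) [Ine3 n t] {P : Ideal ZZ} (hP : Ab3 P) {f : ℕ} (hf : Fok f)
    {χ : Ideal (OO n t) → Om} (hχ : IsChi (3 * f) χ) : ∃ j : ℕ, j < 8 ∧ TyZ P f χ j := by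
  have h3f : 0 < 3 * f := by have := hf.pos; omega
  obtain ⟨f1, f2, f3, ⟨a, b, c, -, -, fa, -, fbc⟩, -⟩ := C.tFrb n t
  -- `zt` facts
  have z0 : ∀ v : OO n t, Cop v 3 → zt P v ^ 8 = 1 := fun v hv => ((h0.2 n t P hP v v).2 hv hv).1
  have zm : ∀ v u : OO n t, Cop v 3 → Cop u 3 → zt P (v * u) = zt P v * zt P u := fun v u hv hu =>
    ((h0.2 n t P hP v u).2 hv hu).2.2.1
  have zi : ∀ v u : OO n t, Cop v 3 → Cop u 3 → ((3 : OO n t) ∣ v - u ↔ zt P v = zt P u) :=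
    fun v u hv hu => ((h0.2 n t P hP v u).2 hv hu).2.2.2.1
  have zp : ∀ v : OO n t, Cop v 3 → ∀ i : ℕ, Cop (v ^ i) 3 ∧ zt P (v ^ i) = zt P v ^ i := by
    intro v hv i
    induction i with
    | zero =>
      rw [pow_zero, pow_zero]
      refine ⟨cop_one 3, ?_⟩
      have h1 := zm 1 1 (cop_one 3) (cop_one 3)
      rw [one_mul] at h1
      have h2 := z0 1 (cop_one 3)
      have h3 : zt P (1 : OO n t) ≠ 0 := by
        intro h4
        rw [h4] at h2
        norm_num at h2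
      have h5 : zt P (1 : OO n t) * (zt P (1 : OO n t) - 1) = 0 := by linear_combination -h1
      rcases mul_eq_zero.1 h5 with h6 | h6
      · exact absurd h6 h3
      · linear_combination h6
    | succ i ih =>
      rw [pow_succ, pow_succ]
      exact ⟨cop_mul ih.1 hv, by rw [zm _ _ ih.1 hv, ih.2]⟩
  -- the generator
  have hb4 : (3 : OO n t) ∣ b ^ 4 + 1 := by
    rcases fbc with ⟨h1, -⟩ | ⟨h1, -⟩
    · have e : b ^ 4 + 1 = (b ^ 2 + a) * (b ^ 2 - a) + (a ^ 2 + 1) := by ring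
      rw [e]
      exact dvd_add (h1.mul_right _) fa
    · have e : b ^ 4 + 1 = (b ^ 2 - a) * (b ^ 2 + a) + (a ^ 2 + 1) := by ring
      rw [e]
      exact dvd_add (h1.mul_right _) fa
  have hb3 : Cop b 3 := by
    rw [f2]
    intro h
    have h1 : (3 : OO n t) ∣ 1 := by
      have e : (1 : OO n t) = (b ^ 4 + 1) - b ^ 3 * b := by ring
      rw [e]
      exact dvd_sub hb4 (h.mul_left _)
    have h2 := (nat_dvd_iff 3 (1 : OO n t)).1 (by exact_mod_cast h1)
    have h3 := h2.1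
    rw [re_one] at h3
    norm_num at h3
  have hm1 : Cop (-1 : OO n t) 3 := cop_neg (cop_one 3)
  have hzb : zt P b ^ 4 ≠ 1 := by
    intro h
    have h1 := (zi (b ^ 4) 1 (zp b hb3 4).1 (cop_one 3)).2 (by
      rw [(zp b hb3 4).2, h, ← pow_zero (1 : OO n t), (zp 1 (cop_one 3) 0).2, pow_zero])
    have h2 : (3 : OO n t) ∣ 2 := by
      have e : (2 : OO n t) = (b ^ 4 + 1) - (b ^ 4 - 1) := by ring
      rw [e]
      exact dvd_sub hb4 h1
    have h3 := (nat_dvd_iff 3 (2 : OO n t)).1 (by exact_mod_cast h2)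
    have h4 := h3.1
    rw [QuadraticAlgebra.re_ofNat] at h4
    norm_num at h4
  have hprim : IsPrimitiveRoot (zt P b) 8 := by
    have h1 : orderOf (zt P b) ∣ 8 := orderOf_dvd_of_pow_eq_one (z0 b hb3)
    have h2 : ¬ orderOf (zt P b) ∣ 4 := fun h => hzb (orderOf_dvd_iff_pow_eq_one.1 h)
    have h3 : orderOf (zt P b) = 8 := by
      have h4 : orderOf (zt P b) ∣ 2 ^ 3 := h1
      obtain ⟨i, hi, h5⟩ := (Nat.dvd_prime_pow Nat.prime_two).1 h4
      rw [h5] at h2 ⊢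
      have h6 : i = 3 := by
        by_contra h7
        apply h2
        have h8 : i ≤ 2 := by omega
        exact (pow_dvd_pow 2 h8).trans (by norm_num)
      rw [h6]
      norm_num
    rw [← h3]
    exact IsPrimitiveRoot.orderOf _
  -- the element `v0`
  obtain ⟨v0, hv1, hv2⟩ : ∃ v0 : OO n t, (f : OO n t) ∣ v0 - 1 ∧ (3 : OO n t) ∣ v0 - b := by
    obtain ⟨x, y, hxy⟩ : IsCoprime (f : ℤ) (3 : ℤ) := by
      exact_mod_cast Nat.isCoprime_iff_coprime.2 hf.cop
    have hxy' : (x : OO n t) * (f : OO n t) + (y : OO n t) * 3 = 1 := by exact_mod_cast hxy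
    refine ⟨1 + (f : OO n t) * ((x : OO n t) * (b - 1)), ⟨(x : OO n t) * (b - 1), by ring⟩,
      ⟨-((y : OO n t) * (b - 1)), ?_⟩⟩
    linear_combination (b - 1) * hxy'
  have hv3 : Cop v0 3 := by
    rw [f2]
    intro h
    have h1 := dvd_sub h hv2
    rw [sub_sub_cancel] at h1
    exact ((f2 b).1 hb3) h1
  have hzv : zt P v0 = zt P b := (zi v0 b hv3 hb3).1 hv2
  -- elements `= 1` modulo `f` and `= 1` modulo `3`
  have hcomb : ∀ x : OO n t, (f : OO n t) ∣ x → (3 : OO n t) ∣ x → ((3 * f : ℕ) : OO n t) ∣ x := by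
    intro x h1 h2
    rw [nat_dvd_iff]
    have h1' := (nat_dvd_iff f x).1 h1
    have h2' := (nat_dvd_iff 3 x).1 (by exact_mod_cast h2)
    have hc : IsCoprime ((3 : ℕ) : ℤ) (f : ℤ) := (Nat.isCoprime_iff_coprime.2 hf.cop).symm
    push_cast at h1' h2' hc ⊢
    exact ⟨hc.mul_dvd h2'.1 h1'.1, hc.mul_dvd h2'.2 h1'.2⟩
  have hpf : ∀ (v : OO n t) (i : ℕ), (f : OO n t) ∣ v - 1 → (f : OO n t) ∣ v ^ i - 1 := by
    intro v i h
    have := sub_dvd_pow_sub_pow v 1 i
    rw [one_pow] at this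
    exact h.trans this
  have hcop3f : ∀ v : OO n t, (f : OO n t) ∣ v - 1 → Cop v 3 → Cop v (3 * f) := by
    intro v h1 h2
    rw [(DS.G.aCop n t).2.1]
    refine ⟨h2, ?_⟩
    refine cop_congr (a := 1) ?_ (cop_one f)
    rw [← neg_sub]
    exact (dvd_neg).2 h1
  have hchi : ∀ v u : OO n t, (f : OO n t) ∣ v - 1 → (f : OO n t) ∣ u - 1 → Cop v 3 → Cop u 3 →
      (3 : OO n t) ∣ v - u → χ (sp v) = χ (sp u) := by
    intro v u h1 h2 h3 h4 h5
    have hv' := hcop3f v h1 h3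
    have hu' := hcop3f u h2 h4
    have hv0 : v ≠ 0 := by
      rintro rfl
      unfold Cop at h3
      rw [Nm_zero, isCoprime_zero_left, Int.isUnit_iff] at h3
      norm_num at h3
    have hu0 : u ≠ 0 := by
      rintro rfl
      unfold Cop at h4
      rw [Nm_zero, isCoprime_zero_left, Int.isUnit_iff] at h4
      norm_num at h4
    refine hχ.ray _ _ (fun h => hv0 (Ideal.span_singleton_eq_bot.1 h))
      (fun h => hu0 (Ideal.span_singleton_eq_bot.1 h)) (((aO6 n t).2.2.2.1 _ v h3f).2 hv')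
      (((aO6 n t).2.2.2.1 _ u h3f).2 hu') ?_
    refine ((aO7 n t (3 * f) h3f).2.2.2.2.2.2.2.1 v u hv0 hu0 hv' hu').2 ⟨1, Nm_one, ?_⟩
    rw [one_mul]
    refine hcomb _ ?_ h5
    have h6 := dvd_sub h1 h2
    rwa [sub_sub_sub_cancel_right] at h6
  -- `χ (sp v0)` is an eighth root of unity
  have h8 : χ (sp v0) ^ 8 = 1 := by
    rw [← chi_pow h3f hχ, hchi (v0 ^ 8) 1 (hpf _ _ hv1) (by rw [sub_self]; exact dvd_zero _)
      (zp v0 hv3 8).1 (cop_one 3) (f3 v0 hv3).1,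
      show sp (1 : OO n t) = ⊤ from Ideal.span_singleton_one]
    exact chi_top h3f hχ
  obtain ⟨j, hj, hj2⟩ := hprim.eq_pow_of_pow_eq_one h8
  refine ⟨j, hj, ?_⟩
  intro v hv hc
  obtain ⟨i, -, hi⟩ := hprim.eq_pow_of_pow_eq_one (z0 v hc)
  have h9 : (3 : OO n t) ∣ v - v0 ^ i := by
    rw [zi v _ hc (zp v0 hv3 i).1, (zp v0 hv3 i).2, hzv, hi]
  rw [hchi v (v0 ^ i) hv (hpf _ _ hv1) hc (zp v0 hv3 i).1 h9, chi_pow h3f hχ, ← hj2, ← hi]
  ring

end Pool.Agent.DM.G
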