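import Pool.Agent.Lib.DM.G.HNf

/-!
# Theorem DM, part G, module RB: the classes modulo `f 3^N` of norm `± 1` modulo `3^N`, first system
-/

set_option autoImplicit false

open scoped Pointwise

noncomputable section

namespace Pool.Agent.DM.G

open Pool.Agent.MuZ Pool.Agent.FW Pool.Agent.DN
open Pool.Agent.DI (io ofC io_inj exists_io io_ofC ofC_io VP MP UP TP ex)
open Pool.Agent.DS.G (IsRp UR unit_inv IsRI bt)

variable {k t : ℕ}

/-- `a` and `b` are `±` each other modulo `3 ^ N`. -/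
def Pm (N : ℕ) (a b : ℤ) : Prop := (3 : ℤ) ^ N ∣ a - b ∨ (3 : ℤ) ^ N ∣ a + b

/-- The classes modulo `f 3^N`, with norm `± 1` modulo `3^N`: the products `sp β * b`. -/
def C_RB : Prop :=
  ∀ (k t : ℕ) [SqN k t] (f N : ℕ) (R : Finset (Ideal (OO k t))), Fok f → 1 ≤ N → IsRC f R →
    (∀ b ∈ R, PrI b (3 * f)) → ∀ I : Finset (Ideal (OO k t) × ℕ × ℕ),
    (∀ p, p ∈ I ↔ p.1 ∈ R ∧ p.2.1 < 3 ^ N ∧ p.2.2 < 3 ^ N ∧
      Pm N (NI p.1 * Nm (bt k t f p.2.1 p.2.2)) 1) →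
    Set.InjOn (fun p : Ideal (OO k t) × ℕ × ℕ => sp (bt k t f p.2.1 p.2.2) * p.1) (I : Set _) ∧
    ∀ B : Finset (Ideal (OO k t)), (B : Set (Ideal (OO k t))) =
      (fun p : Ideal (OO k t) × ℕ × ℕ => sp (bt k t f p.2.1 p.2.2) * p.1) '' (I : Set _) →
      IsRI (f * 3 ^ N) (CN f N) B

private theorem RB_re (f x y : ℕ) : (bt k t f x y).re = 1 + f * x := rfl

private theorem RB_im (f x y : ℕ) : (bt k t f x y).im = f * y := rfl

private theorem RB_ne (f x y : ℕ) : bt k t f x y ≠ 0 := by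
  intro h
  have h1 := congrArg QuadraticAlgebra.re h
  rw [RB_re, QuadraticAlgebra.re_zero] at h1
  have h2 : (0 : ℤ) ≤ (f : ℤ) * x := by positivity
  linarith

private theorem RB_f (f x y : ℕ) : (f : OO k t) ∣ bt k t f x y - 1 := by
  rw [nat_dvd_iff, QuadraticAlgebra.re_sub, QuadraticAlgebra.im_sub, RB_re, RB_im, re_one, im_one]
  exact ⟨⟨x, by ring⟩, ⟨y, by ring⟩⟩

private theorem RB_copf (f x y : ℕ) : Cop (bt k t f x y) f := by
  refine cop_congr ?_ (cop_one f)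
  rw [← neg_sub, dvd_neg]
  exact RB_f f x y

private theorem RB_three {N : ℕ} (hN : 1 ≤ N) {a b : ℤ} (h : Pm N (a * b) 1) : ¬ (3 : ℤ) ∣ b := by
  intro hb
  have h2 : (3 : ℤ) ∣ 3 ^ N := dvd_pow_self 3 (by omega)
  have hab : (3 : ℤ) ∣ a * b := hb.mul_left a
  rcases h with h | h
  · have h3 := h2.trans h
    have h4 : (3 : ℤ) ∣ 1 := by
      have := dvd_sub hab h3
      rwa [sub_sub_cancel] at this
    norm_num at h4
  · have h3 := h2.trans h
    have h4 : (3 : ℤ) ∣ 1 := by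
      have := dvd_sub h3 hab
      rwa [add_sub_cancel_left] at this
    norm_num at h4

/-- An element with norm prime to `3`. -/
theorem cop3_of {v : OO k t} (h : ¬ (3 : ℤ) ∣ Nm v) : Cop v 3 := by
  unfold Cop
  have h3 := (Prime.coprime_iff_not_dvd Int.prime_three).2 h
  exact_mod_cast h3.symm

private theorem RB_lt {N x x' f : ℕ} (hf : 0 < f) (hx : x < 3 ^ N) (hx' : x' < 3 ^ N)
    (h : ((f * 3 ^ N : ℕ) : ℤ) ∣ (f : ℤ) * ((x : ℤ) - x')) : x = x' := by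
  have hf' : (f : ℤ) ≠ 0 := by exact_mod_cast hf.ne'
  have h1 : ((3 ^ N : ℕ) : ℤ) ∣ (x : ℤ) - x' := by
    rw [Nat.cast_mul] at h
    exact (mul_dvd_mul_iff_left hf').1 h
  have h2 : (x : ℤ) - x' = 0 := by
    apply Int.eq_zero_of_abs_lt_dvd h1
    rw [abs_lt]
    have e1 : (x : ℤ) < (3 ^ N : ℕ) := by exact_mod_cast hx
    have e2 : (x' : ℤ) < (3 ^ N : ℕ) := by exact_mod_cast hx'
    constructor <;> linarith [Int.natCast_nonneg x, Int.natCast_nonneg x']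
  omega

theorem aRB : C_RB := by
  have hO2 := aO2
  have hO6 := aO6
  have hO7 := aO7
  have hO9 := aO9
  have hCop := DS.G.aCop
  have hRUp := DS.G.aRUp
  intro k t _ f N R hf hN hR hR2 I hI
  have hf0 : 0 < f := hf.pos
  have hf3 : 3 ≤ f := by
    have := Nat.le_of_dvd hf0 hf.dvd
    omega
  have hM0 : 0 < f * 3 ^ N := Nat.mul_pos hf0 (pow_pos (by norm_num) N)
  have hfM : f ∣ f * 3 ^ N := dvd_mul_right f _
  obtain ⟨o1, o2, o3, o4, o5⟩ := hO6 k t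
  obtain ⟨n1, n2, n3, n4, n5, n6, n7, n8⟩ := hO2 k t
  obtain ⟨c1, c2, c3, c4, c5, c6, c7, -, -⟩ := hCop k t
  obtain ⟨-, -, -, -, -, -, -, -, -, -, -, -, c9, -⟩ := aHNf k t f N hN
  obtain ⟨r1, r2, r3, r4, r5, r6, r7, r8, -⟩ := hO7 k t (f * 3 ^ N) hM0
  obtain ⟨q1, q2, q3, q4, q5, q6, q7, q8, q9, -⟩ := hO7 k t f hf0
  -- from `3 f` to `f 3^N`
  have hPM : ∀ b : Ideal (OO k t), PrI b (3 * f) → PrI b (f * 3 ^ N) := by
    intro b hb
    rw [o3 _ _ hM0]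
    rw [o3 _ _ (by omega)] at hb
    exact Nat.Coprime.mul_right (Nat.Coprime.coprime_dvd_right (dvd_mul_left f 3) hb)
      (Nat.Coprime.pow_right N (Nat.Coprime.coprime_dvd_right (dvd_mul_right 3 f) hb))
  -- norms
  have hNI : ∀ (v : OO k t) (b : Ideal (OO k t)), (NI (sp v * b) : ℤ) = NI b * Nm v := by
    intro v b
    rw [n5, Nat.cast_mul, n4, mul_comm]
  -- coprimality of `β`
  have hc : ∀ p ∈ I, Cop (bt k t f p.2.1 p.2.2) (3 * f) := by
    intro p hp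
    rw [c2]
    exact ⟨cop3_of (RB_three hN ((hI p).1 hp).2.2.2), RB_copf f _ _⟩
  have hcM : ∀ p ∈ I, Cop (bt k t f p.2.1 p.2.2) (f * 3 ^ N) := fun p hp => c9 _ (hc p hp)
  have hcore : ∀ p ∈ I, ∀ q ∈ I, Ray (f * 3 ^ N) (sp (bt k t f p.2.1 p.2.2) * p.1)
      (sp (bt k t f q.2.1 q.2.2) * q.1) → p = q := by
    intro p hp q hq h
    obtain ⟨hp1, hp2, hp3, hp4⟩ := (hI p).1 hp
    obtain ⟨hq1, hq2, hq3, hq4⟩ := (hI q).1 hq
    have hone : ∀ (x y : ℕ) (b : Ideal (OO k t)), Ray f (sp (bt k t f x y) * b) b := by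
      intro x y b
      have h1 : Ray f (sp (bt k t f x y)) (sp 1) :=
        (q8 _ _ (RB_ne f x y) one_ne_zero (RB_copf f x y) (cop_one f)).2
          ⟨1, Nm_one, by rw [one_mul]; exact RB_f f x y⟩
      have h2 := q4 _ _ _ _ h1 (q1 b)
      have h3 : sp (1 : OO k t) * b = b := by
        rw [sp, Ideal.span_singleton_one, Ideal.top_mul]
      rwa [h3] at h2
    have hb : p.1 = q.1 := by
      refine hR.uni _ hp1 _ hq1 ?_
      exact q3 _ _ _ (q2 _ _ (hone p.2.1 p.2.2 p.1)) (q3 _ _ _ (r7 f _ _ hfM h) (hone _ _ _))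
    rw [← hb] at h
    have h1 := r5 _ _ _ (hR.mem _ hp1).1 (hPM _ (hR2 _ hp1)) h
    have h3 : ((f * 3 ^ N : ℕ) : OO k t) ∣ bt k t f p.2.1 p.2.2 - bt k t f q.2.1 q.2.2 := by
      obtain ⟨u, hu, hd⟩ := (r8 _ _ (RB_ne f _ _) (RB_ne f _ _) (hcM p hp) (hcM q hq)).1 h1
      have hu1 : (f : OO k t) ∣ u - 1 := by
        have hd' : (f : OO k t) ∣ bt k t f p.2.1 p.2.2 - u * bt k t f q.2.1 q.2.2 :=
          (Nat.cast_dvd_cast hfM).trans hd
        have e : u - 1 = (bt k t f p.2.1 p.2.2 - 1) - (bt k t f p.2.1 p.2.2 - u * bt k t f q.2.1 q.2.2) -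
            u * (bt k t f q.2.1 q.2.2 - 1) := by ring
        rw [e]
        exact dvd_sub (dvd_sub (RB_f f _ _) hd') ((RB_f f _ _).mul_left _)
      rw [q9 u hf3 hu hu1, one_mul] at hd
      exact hd
    obtain ⟨h4, h5⟩ := (nat_dvd_iff _ _).1 h3
    rw [QuadraticAlgebra.re_sub, RB_re, RB_re] at h4
    rw [QuadraticAlgebra.im_sub, RB_im, RB_im] at h5
    have e1 : p.2.1 = q.2.1 := by
      refine RB_lt hf0 hp2 hq2 ?_
      have e : 1 + (f : ℤ) * (p.2.1 : ℤ) - (1 + f * (q.2.1 : ℤ)) = f * ((p.2.1 : ℤ) - q.2.1) := by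
        ring
      rwa [e] at h4
    have e2 : p.2.2 = q.2.2 := by
      refine RB_lt hf0 hp3 hq3 ?_
      have e : (f : ℤ) * (p.2.2 : ℤ) - f * (q.2.2 : ℤ) = f * ((p.2.2 : ℤ) - q.2.2) := by
        ring
      rwa [e] at h5
    exact Prod.ext hb (Prod.ext e1 e2)
  refine ⟨fun p hp q hq h => hcore p hp q hq (by
    have h' : sp (bt k t f p.2.1 p.2.2) * p.1 = sp (bt k t f q.2.1 q.2.2) * q.1 := h
    rw [h']
    exact r1 _), fun B hB => ?_⟩
  have hBm : ∀ b, b ∈ B ↔ ∃ p ∈ I, sp (bt k t f p.2.1 p.2.2) * p.1 = b := by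
    intro b
    rw [← Finset.mem_coe, hB]
    rfl
  refine ⟨?_, ?_, ?_⟩
  · intro b hb
    obtain ⟨p, hp, rfl⟩ := (hBm b).1 hb
    obtain ⟨hp1, hp2, hp3, hp4⟩ := (hI p).1 hp
    refine ⟨?_, ?_, ?_⟩
    · intro h
      rw [Ideal.mul_eq_bot] at h
      rcases h with h | h
      · exact RB_ne f _ _ (Ideal.span_singleton_eq_bot.1 h)
      · exact (hR.mem _ hp1).1 h
    · rw [o1]
      exact ⟨(o4 _ _ (by omega)).2 (hc p hp), hR2 _ hp1⟩
    · rw [hNI]
      exact hp4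
  · intro b' hb'
    obtain ⟨hb0, hb2, hbN⟩ := hb'
    have hbf : PrI b' f := ((o2 3 f b').1 hb2).2
    obtain ⟨b, hbR, hRay⟩ := hR.ex b' hb0 hbf
    have hbM := hPM b (hR2 b hbR)
    have hbM' := hPM b' hb2
    obtain ⟨β, hβ0, hβf, hβc, hβR⟩ := hRUp k t f (3 ^ N) b b' hf0 (pow_pos (by norm_num) N) (hR.mem b hbR).1 hb0
      hbM hbM' hRay
    obtain ⟨hg1, hg2⟩ := (nat_dvd_iff _ _).1 hβf
    rw [QuadraticAlgebra.re_sub, re_one] at hg1
    rw [QuadraticAlgebra.im_sub, im_one, sub_zero] at hg2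
    obtain ⟨g1, hg1⟩ := hg1
    obtain ⟨g2, hg2⟩ := hg2
    have h2N : (0 : ℤ) < 3 ^ N := by positivity
    have hres : ∀ g : ℤ, ∃ x : ℕ, x < 3 ^ N ∧ (3 : ℤ) ^ N ∣ g - x := by
      intro g
      have e1 := Int.emod_nonneg g h2N.ne'
      have e2 := Int.emod_lt_of_pos g h2N
      refine ⟨(g % 3 ^ N).toNat, ?_, ?_⟩
      · have : ((g % 3 ^ N).toNat : ℤ) < ((3 ^ N : ℕ) : ℤ) := by
          rw [Int.toNat_of_nonneg e1]
          push_cast
          exact e2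
        exact_mod_cast this
      · rw [Int.toNat_of_nonneg e1]
        exact Int.dvd_self_sub_emod
    obtain ⟨x, hx, hx'⟩ := hres g1
    obtain ⟨y, hy, hy'⟩ := hres g2
    have hdiv : ((f * 3 ^ N : ℕ) : OO k t) ∣ β - bt k t f x y := by
      rw [nat_dvd_iff, QuadraticAlgebra.re_sub, QuadraticAlgebra.im_sub, RB_re, RB_im]
      push_cast
      constructor
      · have e : β.re - (1 + f * (x : ℤ)) = f * (g1 - x) := by linarith
        rw [e]
        exact mul_dvd_mul_left _ hx'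
      · have e : β.im - f * (y : ℤ) = f * (g2 - y) := by linarith
        rw [e]
        exact mul_dvd_mul_left _ hy'
    have hbc : Cop (bt k t f x y) (f * 3 ^ N) := cop_congr hdiv hβc
    have hR1 : Ray (f * 3 ^ N) (sp β) (sp (bt k t f x y)) :=
      (r8 _ _ hβ0 (RB_ne f x y) hβc hbc).2 ⟨1, Nm_one, by rw [one_mul]; exact hdiv⟩
    have hR3 : Ray (f * 3 ^ N) b' (sp (bt k t f x y) * b) := r3 _ _ _ hβR (r4 _ _ _ _ hR1 (r1 b))
    have hPr : PrI (sp (bt k t f x y) * b) (f * 3 ^ N) := by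
      rw [o1]
      exact ⟨(o4 _ _ hM0).2 hbc, hbM⟩
    have h9 := hO9 k t (f * 3 ^ N) hM0 _ _ hbM' hPr hR3
    rw [hNI] at h9
    have h10 : (3 : ℤ) ^ N ∣ (NI b' : ℤ) - NI b * Nm (bt k t f x y) := by
      refine Dvd.dvd.trans ?_ h9
      push_cast
      exact dvd_mul_left _ _
    have hPm : Pm N (NI b * Nm (bt k t f x y)) 1 := by
      rcases hbN with h | h
      · left
        have := dvd_sub h h10
        have e : (NI b' : ℤ) - 1 - (NI b' - NI b * Nm (bt k t f x y)) = NI b * Nm (bt k t f x y) - 1 := by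
          ring
        rwa [e] at this
      · right
        have := dvd_sub h h10
        have e : (NI b' : ℤ) + 1 - (NI b' - NI b * Nm (bt k t f x y)) = NI b * Nm (bt k t f x y) + 1 := by
          ring
        rwa [e] at this
    refine ⟨sp (bt k t f x y) * b, (hBm _).2 ⟨(b, x, y), (hI _).2 ⟨hbR, hx, hy, hPm⟩, rfl⟩, hR3⟩
  · intro b hb b' hb' h
    obtain ⟨p, hp, rfl⟩ := (hBm b).1 hb
    obtain ⟨q, hq, rfl⟩ := (hBm b').1 hb'
    rw [hcore p hp q hq h]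

end Pool.Agent.DM.G
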