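import Pool.Agent.Lib.DM.G.RB

/-!
# Theorem DM, part G, module RD: the classes modulo `f 3^N` of norm `± 1` modulo `3^N`, second system
-/

set_option autoImplicit false

open scoped Pointwise

noncomputable section

namespace Pool.Agent.DM.G

open Pool.Agent.MuZ Pool.Agent.FW Pool.Agent.DN
open Pool.Agent.DI (io ofC io_inj exists_io io_ofC ofC_io VP MP UP TP ex)
open Pool.Agent.DS.G (IsRp UR unit_inv IsRI bt)

variable {k t : ℕ}

/-- The classes modulo `f 3^N`, with norm `± 1` modulo `3^N`: the products `sp h * c`, `c` in a system `D` of representatives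
modulo `H_f` of the classes with norm `± 1` modulo `3^N`. -/
def C_RD : Prop :=
  ∀ (k t : ℕ) [SqN k t] (f N : ℕ) (T : Finset (OO k t)) (D : Finset (Ideal (OO k t))), Fok f →
    1 ≤ N → IsRep f N T → (∀ c ∈ D, CN f N c) →
    (∀ b : Ideal (OO k t), CN f N b → ∃ c ∈ D, ∃ a : Ideal (OO k t), HP f a ∧ Ray (3 * f) b (a * c)) →
    (∀ c ∈ D, ∀ c' ∈ D, (∃ a : Ideal (OO k t), HP f a ∧ Ray (3 * f) c' (a * c)) → c = c') →
    Set.InjOn (fun p : Ideal (OO k t) × OO k t => sp p.2 * p.1)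
      ((D ×ˢ T : Finset (Ideal (OO k t) × OO k t)) : Set _) ∧
    ∀ B : Finset (Ideal (OO k t)), (B : Set (Ideal (OO k t))) =
      (fun p : Ideal (OO k t) × OO k t => sp p.2 * p.1) ''
        ((D ×ˢ T : Finset (Ideal (OO k t) × OO k t)) : Set _) →
      IsRI (f * 3 ^ N) (CN f N) B

/-- The norm of an element of `H_f` is `1` modulo `3`. -/
theorem Hf_nm {f : ℕ} {v : OO k t} (h : Hf f v) : (3 : ℤ) ∣ Nm v - 1 := by
  obtain ⟨-, j, hj⟩ := h
  have h1 := Nm_congr hj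
  rw [Nm_one] at h1
  have h2 : (3 : ℤ) ∣ Nm (v ^ 3 ^ j) - 1 := by
    refine dvd_trans ⟨(f : ℤ), ?_⟩ h1
    push_cast
    ring
  have h3 : ∀ i : ℕ, Nm (v ^ i) = Nm v ^ i := by
    intro i
    induction i with
    | zero => rw [pow_zero, pow_zero, Nm_one]
    | succ i ih => rw [pow_succ, Nm_mul, ih, pow_succ]
  rw [h3] at h2
  have h4 : ∀ (x : ℤ) (j : ℕ), (3 : ℤ) ∣ x ^ 3 ^ j - x := by
    intro x j
    induction j with
    | zero => rw [pow_zero, pow_one, sub_self]; exact dvd_zero _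
    | succ j ih =>
      have h5 : ∀ y : ℤ, (3 : ℤ) ∣ y ^ 3 - y := by
        intro y
        have h : y % 3 = 0 ∨ y % 3 = 1 ∨ y % 3 = 2 := by omega
        rcases h with h | h | h
        · obtain ⟨q, rfl⟩ : ∃ q, y = 3 * q := ⟨y / 3, by omega⟩
          exact ⟨9 * q ^ 3 - q, by ring⟩
        · obtain ⟨q, rfl⟩ : ∃ q, y = 3 * q + 1 := ⟨y / 3, by omega⟩
          exact ⟨9 * q ^ 3 + 9 * q ^ 2 + 2 * q, by ring⟩
        · obtain ⟨q, rfl⟩ : ∃ q, y = 3 * q + 2 := ⟨y / 3, by omega⟩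
          exact ⟨9 * q ^ 3 + 18 * q ^ 2 + 11 * q + 2, by ring⟩
      rw [pow_succ, pow_mul]
      have := dvd_add (h5 (x ^ 3 ^ j)) ih
      rwa [sub_add_sub_cancel] at this
  have := dvd_sub h2 (h4 (Nm v) j)
  rwa [show Nm v ^ 3 ^ j - 1 - (Nm v ^ 3 ^ j - Nm v) = Nm v - 1 by ring] at this

private theorem RD_pm_mul {m a b : ℤ} (ha : m ∣ a - 1 ∨ m ∣ a + 1) (hb : m ∣ b - 1 ∨ m ∣ b + 1) :
    m ∣ a * b - 1 ∨ m ∣ a * b + 1 := by
  rcases ha with ⟨x, hx⟩ | ⟨x, hx⟩ <;> rcases hb with ⟨y, hy⟩ | ⟨y, hy⟩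
  · exact Or.inl ⟨x * b + y, by linear_combination b * hx + hy⟩
  · exact Or.inr ⟨x * b + y, by linear_combination b * hx + hy⟩
  · exact Or.inr ⟨x * b - y, by linear_combination b * hx - hy⟩
  · exact Or.inl ⟨x * b - y, by linear_combination b * hx - hy⟩

private theorem RD_pm_div {m a b x : ℤ} (h : m ∣ x - a * b) (hx : m ∣ x - 1 ∨ m ∣ x + 1)
    (hb : m ∣ b - 1 ∨ m ∣ b + 1) : m ∣ a - 1 ∨ m ∣ a + 1 := by
  obtain ⟨z, hz⟩ := h
  rcases hx with ⟨u, hu⟩ | ⟨u, hu⟩ <;> rcases hb with ⟨y, hy⟩ | ⟨y, hy⟩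
  · exact Or.inl ⟨u - z - a * y, by linear_combination hu - hz - a * hy⟩
  · exact Or.inr ⟨z - u + a * y, by linear_combination hz - hu + a * hy⟩
  · exact Or.inr ⟨u - z - a * y, by linear_combination hu - hz - a * hy⟩
  · exact Or.inl ⟨z - u + a * y, by linear_combination hz - hu + a * hy⟩

private theorem RD_ne {v : OO k t} {f : ℕ} (hf : 3 ≤ f) (h : Cop v (3 * f)) : v ≠ 0 := by
  rintro rfl
  unfold Cop at h
  rw [Nm_zero, isCoprime_zero_left, Int.isUnit_iff] at h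
  push_cast at h
  omega

theorem aRD : C_RD := by
  have hO2 := aO2
  have hO6 := aO6
  have hO7 := aO7
  have hO9 := aO9
  have hC := DS.G.aCop
  have hUp := DS.G.aRUp
  have hHN := aHNf
  intro k t _ f N T D hf hN hT hDm hDe hDu
  have hf0 : 0 < f := hf.pos
  have hf3 : 3 ≤ f := le_trans (by norm_num) (Nat.le_of_dvd hf0 hf.dvd)
  have h2N : 0 < 3 ^ N := by positivity
  have hM : 0 < f * 3 ^ N := Nat.mul_pos hf0 h2N
  have hf2 : 0 < 3 * f := by omega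
  have hfN : f * 3 ^ N = 3 * f * 3 ^ (N - 1) := by
    obtain ⟨n, rfl⟩ : ∃ n, N = n + 1 := ⟨N - 1, by omega⟩
    rw [Nat.add_sub_cancel, pow_succ]
    ring
  obtain ⟨-, -, -, n4, n5, -⟩ := hO2 k t
  obtain ⟨o1, o2, o3, o4, -⟩ := hO6 k t
  obtain ⟨r1, r2, r3, r4, r5, r6, r7, r8, -⟩ := hO7 k t (f * 3 ^ N) hM
  obtain ⟨q1, q2, q3, q4, q5, q6, q7, q8, -⟩ := hO7 k t (3 * f) hf2
  obtain ⟨c1, c2, -, -, c5, -, -, -, -⟩ := hC k t
  obtain ⟨-, t2, -, t4, -, t6, -, t8, -, -, -, -, c9, -⟩ := hHN k t f N hN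
  have hfM : 3 * f ∣ f * 3 ^ N := ⟨_, hfN⟩
  -- elements of `T` and `D`
  have TC : ∀ h ∈ T, Cop h (3 * f) := fun h hh => t8 h (hT.mem h hh).1
  have Tne : ∀ h ∈ T, h ≠ 0 := fun h hh => RD_ne hf3 (TC h hh)
  have TM : ∀ h ∈ T, Cop h (f * 3 ^ N) := fun h hh => c9 h (TC h hh)
  have PM : ∀ b : Ideal (OO k t), PrI b (3 * f) → PrI b (f * 3 ^ N) := by
    intro b hb
    rw [o3 _ b hM]
    rw [o3 _ b (by omega)] at hb
    exact Nat.Coprime.mul_right (Nat.Coprime.coprime_mul_left_right hb)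
      (Nat.Coprime.pow_right N (Nat.Coprime.coprime_mul_right_right hb))
  have spne : ∀ v : OO k t, v ≠ 0 → sp v ≠ ⊥ := fun v hv h => hv (Ideal.span_singleton_eq_bot.1 h)
  have mulne : ∀ a b : Ideal (OO k t), a ≠ ⊥ → b ≠ ⊥ → a * b ≠ ⊥ :=
    fun a b ha hb h => (Ideal.mul_eq_bot.1 h).elim ha hb
  have spmul : ∀ v u : OO k t, sp v * sp u = sp (v * u) := fun v u =>
    Ideal.span_singleton_mul_span_singleton v u
  have NIsp : ∀ (v : OO k t) (a : Ideal (OO k t)), (NI (sp v * a) : ℤ) = Nm v * NI a := by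
    intro v a
    rw [n5]
    push_cast
    rw [n4]
  have c1M : Cop (1 : OO k t) (3 * f) := by
    unfold Cop
    rw [Nm_one]
    exact isCoprime_one_left
  -- uniqueness
  have key : ∀ c ∈ D, ∀ c' ∈ D, ∀ h ∈ T, ∀ h' ∈ T, Ray (f * 3 ^ N) (sp h * c) (sp h' * c') →
      c = c' ∧ h = h' := by
    intro c hc c' hc' h hh h' hh' hR
    have hRf := r7 (3 * f) _ _ hfM hR
    obtain ⟨g, g0, gC, gI⟩ := c5 h' (3 * f) hf2 (TC h' hh')
    have hHg : Hf f g := t6 h' g (hT.mem h' hh').1 gI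
    have e1 : Ray (3 * f) (sp (g * h')) ⊤ := by
      rw [← Ideal.span_singleton_one]
      refine (q8 (g * h') 1 (mul_ne_zero g0 (Tne h' hh')) one_ne_zero
        ((c1 _ _ _).2 ⟨gC, TC h' hh'⟩) c1M).2 ⟨1, Nm_one, ?_⟩
      rw [one_mul, mul_comm g h']
      exact gI
    have e2 : Ray (3 * f) (sp g * (sp h' * c')) c' := by
      have := q4 _ _ _ _ e1 (q1 c')
      rwa [← spmul, mul_assoc, Ideal.top_mul] at this
    have e3 : Ray (3 * f) (sp g * (sp h * c)) (sp g * (sp h' * c')) := q4 _ _ _ _ (q1 _) hRf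
    have e4 : Ray (3 * f) c' (sp (g * h) * c) := by
      have := q2 _ _ (q3 _ _ _ e3 e2)
      rwa [← mul_assoc, spmul] at this
    have hcc : c = c' := hDu c hc c' hc' ⟨sp (g * h), ⟨g * h, mul_ne_zero g0 (Tne h hh),
      t2 _ _ hHg (hT.mem h hh).1, q1 _⟩, e4⟩
    refine ⟨hcc, ?_⟩
    subst hcc
    have e5 := r5 _ _ c (hDm c hc).1 (PM c (hDm c hc).2.1) hR
    obtain ⟨u, hu, hd⟩ := (r8 _ _ (Tne h hh) (Tne h' hh') (TM h hh) (TM h' hh')).1 e5
    exact hT.uni h hh h' hh' u hu hd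
  constructor
  · rintro ⟨c, h⟩ hp ⟨c', h'⟩ hp' heq
    rw [Finset.mem_coe, Finset.mem_product] at hp hp'
    have heq' : sp h * c = sp h' * c' := heq
    obtain ⟨e1, e2⟩ := key c hp.1 c' hp'.1 h hp.2 h' hp'.2 (by rw [heq']; exact r1 _)
    rw [e1, e2]
  · intro B hB
    have hBm : ∀ b : Ideal (OO k t), b ∈ B ↔ ∃ c ∈ D, ∃ h ∈ T, sp h * c = b := by
      intro b
      rw [← Finset.mem_coe, hB]
      constructor
      · rintro ⟨⟨c, h⟩, hp, rfl⟩
        rw [Finset.mem_coe, Finset.mem_product] at hp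
        exact ⟨c, hp.1, h, hp.2, rfl⟩
      · rintro ⟨c, hc, h, hh, rfl⟩
        exact ⟨(c, h), by rw [Finset.mem_coe, Finset.mem_product]; exact ⟨hc, hh⟩, rfl⟩
    refine ⟨?_, ?_, ?_⟩
    · intro b hb
      obtain ⟨c, hc, h, hh, rfl⟩ := (hBm b).1 hb
      obtain ⟨hT1, hT2⟩ := hT.mem h hh
      obtain ⟨hD1, hD2, hD3⟩ := hDm c hc
      refine ⟨mulne _ _ (spne h (Tne h hh)) hD1,
        (o1 _ _ _).2 ⟨(o4 _ _ (by omega)).2 (TC h hh), hD2⟩, ?_⟩
      rw [NIsp]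
      exact RD_pm_mul (Or.inl hT2) hD3
    · rintro b' ⟨hb0, hb1, hb2⟩
      obtain ⟨c, hc, a, ⟨v, v0, hv, hav⟩, hba⟩ := hDe b' ⟨hb0, hb1, hb2⟩
      obtain ⟨hD1, hD2, hD3⟩ := hDm c hc
      have hvC : Cop v (3 * f) := t8 v hv
      have e2 : Ray (3 * f) b' (sp v * c) := q3 _ _ _ hba (q4 _ _ _ _ hav (q1 c))
      have hPv : PrI (sp v * c) (f * 3 ^ N) := PM _ ((o1 _ _ _).2 ⟨(o4 _ _ (by omega)).2 hvC, hD2⟩)
      have hPv' := hPv
      have hPb := PM _ hb1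
      rw [hfN] at hPv' hPb
      obtain ⟨β, β0, hβ1, hβC, hβR⟩ := hUp k t (3 * f) (3 ^ (N - 1)) (sp v * c) b' hf2
        (by positivity) (mulne _ _ (spne v v0) hD1) hb0 hPv' hPb e2
      rw [← hfN] at hβC hβR
      have e3 : sp β * (sp v * c) = sp (β * v) * c := by rw [← mul_assoc, spmul]
      rw [e3] at hβR
      have hHf : Hf f (β * v) := t4 v (β * v) (by
        have : β * v - v = (β - 1) * v := by ring
        rw [this]
        exact hβ1.mul_right v) hv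
      have hC2 : Cop (β * v) (3 * f) := t8 _ hHf
      have hβv0 : β * v ≠ 0 := mul_ne_zero β0 v0
      have hPr : PrI (sp (β * v) * c) (f * 3 ^ N) := ((r6 _ _ hβR).2).1 (PM _ hb1)
      have hnorm := hO9 k t (f * 3 ^ N) hM b' (sp (β * v) * c) (PM _ hb1) hPr hβR
      rw [NIsp] at hnorm
      have h2d : (3 : ℤ) ^ N ∣ (NI b' : ℤ) - Nm (β * v) * NI c :=
        dvd_trans ⟨(f : ℤ), by push_cast; ring⟩ hnorm
      have hHN' : HN f N (β * v) := by
        refine ⟨hHf, ?_⟩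
        rcases RD_pm_div h2d hb2 hD3 with h | h
        · exact h
        · exfalso
          have h3 := Hf_nm hHf
          have h4 : (3 : ℤ) ∣ 3 ^ N := dvd_pow_self 3 (by omega)
          have h5 := h4.trans h
          omega
      obtain ⟨h, hh, u, hu, hhd⟩ := hT.ex (β * v) hHN'
      have e4 : Ray (f * 3 ^ N) (sp (β * v)) (sp h) := by
        exact (r8 _ _ hβv0 (Tne h hh) (c9 _ hC2) (TM h hh)).2 ⟨u, hu, hhd⟩
      exact ⟨sp h * c, (hBm _).2 ⟨c, hc, h, hh, rfl⟩, r3 _ _ _ hβR (r4 _ _ _ _ e4 (r1 c))⟩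
    · intro b hb b' hb' hR
      obtain ⟨c, hc, h, hh, rfl⟩ := (hBm b).1 hb
      obtain ⟨c', hc', h', hh', rfl⟩ := (hBm b').1 hb'
      obtain ⟨e1, e2⟩ := key c hc c' hc' h hh h' hh' hR
      rw [e1, e2]

end Pool.Agent.DM.G
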