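import Pool.Agent.Lib.DM.G.ChT
import Pool.Agent.Lib.DM.G.GRm

/-!
# Theorem DM, part G: `S_G` (`3` inert) from `S_T0`, `S_LS`, `S_Vq`, `S_F`, `S_Lw`
-/

set_option autoImplicit false

open scoped Pointwise

noncomputable section

namespace Pool.Agent.DM.G

open Pool.Agent.MuZ Pool.Agent.FW Pool.Agent.DN
open Pool.Agent.DI (io ofC io_inj exists_io io_ofC ofC_io VP MP UP TP ex)
open Pool.Agent.DT (kap cbr)

/-- The cube of a sum modulo `3`. -/
private theorem SG_cube {P : Ideal ZZ} [P.IsPrime] (h3 : MP P 3) {ι : Type} (s : Finset ι) (x : ι → Om)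
    (hx : ∀ i ∈ s, VP P (x i)) : MP P ((∑ i ∈ s, x i) ^ 3 - ∑ i ∈ s, x i ^ 3) := by
  classical
  induction s using Finset.induction_on with
  | empty =>
    rw [Finset.sum_empty, Finset.sum_empty]
    have e : (0 : Om) ^ 3 - 0 = 0 := by ring
    rw [e]
    exact DI.MP.zero
  | insert a s ha ih =>
    rw [Finset.sum_insert ha, Finset.sum_insert ha]
    have h1 := ih fun i hi => hx i (Finset.mem_insert_of_mem hi)
    have h5 : VP P (x a) := hx a (Finset.mem_insert_self a s)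
    have h4 : VP P (∑ i ∈ s, x i) := DI.VP.sum _ _ fun i hi => hx i (Finset.mem_insert_of_mem hi)
    have e : (x a + ∑ i ∈ s, x i) ^ 3 - (x a ^ 3 + ∑ i ∈ s, x i ^ 3) =
        3 * (x a * (∑ i ∈ s, x i) * (x a + ∑ i ∈ s, x i)) + ((∑ i ∈ s, x i) ^ 3 - ∑ i ∈ s, x i ^ 3) := by
      ring
    rw [e]
    exact (DI.MP.mul_right h3 ((h5.mul h4).mul (h5.add h4))).add h1

/-- The cubes of the values of `kap`. -/
private theorem SG_kap {P : Ideal ZZ} [P.IsPrime] (h3 : MP P 3) (x : ZMod 3) :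
    MP P (((x.val : ℕ) : Om) ^ 3 - ((x.val : ℕ) : Om)) := by
  have h2 : x.val = 0 ∨ x.val = 1 ∨ x.val = 2 := by
    have := ZMod.val_lt x
    omega
  rcases h2 with h2 | h2 | h2 <;> rw [h2]
  · have e : (((0 : ℕ) : Om)) ^ 3 - ((0 : ℕ) : Om) = 0 := by norm_num
    rw [e]
    exact DI.MP.zero
  · have e : (((1 : ℕ) : Om)) ^ 3 - ((1 : ℕ) : Om) = 0 := by norm_num
    rw [e]
    exact DI.MP.zero
  · have e : (((2 : ℕ) : Om)) ^ 3 - ((2 : ℕ) : Om) = 3 * 2 := by norm_num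
    rw [e]
    exact DI.MP.mul_right h3 (by
      have := DI.VP.nat (P := P) 2
      exact_mod_cast this)

/-- **Output of Part G** (inert case). -/
theorem aSG (h0 : S_T0) (ls : S_LS) (vq : S_Vq) (sf : S_F) (lw : S_Lw) : S_G := by
  classical
  intro n t _ f m χ P hM hmt hχ hP
  have : P.IsPrime := hP.1.1
  have hf0 : 0 < f := hM.pos
  obtain ⟨⟨R, hR, hRb⟩, -, -⟩ := DS.G.aR2 n t f 3 hf0 (by norm_num)
  have hFR : FR f R := fun b hb => ⟨(hR.mem b hb).1, hRb b hb⟩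
  obtain ⟨M, hMl⟩ := lw n t f m R hM hFR
  -- the main claim, for the characters of type `k - 1`
  have main : ∀ (k e : ℕ) (χ : Ideal (OO n t) → Om), (k = 1 ∨ k = 2 ∨ k = 3) → (e = 0 ∨ e = 1) →
      IsChi (3 * f) χ → TyZ P f χ (k - 1) →
      ∃ N0 : ℕ, ∀ N : ℕ, N0 ≤ N → ∀ T : Finset (OO n t), IsRep f N T → ∀ D : Finset (Ideal (OO n t)),
        IsDS f N D → ∃ d : Gal(Om/ℚ), IsD n t f P d ∧
          ¬ MP P (∑ c ∈ D, χ c * oN c ^ e * ((kap (uN f N m T c) d).val : Om)) := by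
    intro k e χ hk he hχ hty
    by_contra hcon
    push Not at hcon
    have hty' := tyZ_ty h0 hP hty
    have h1 := ls n t f k e m R χ P hM hFR hR hχ hP hk he hty' (fun N0 => by
      obtain ⟨N, a1, T, a2, D, a3, a4⟩ := hcon N0
      exact ⟨N, a1, T, a2, D, a3, a4⟩)
    obtain ⟨a, b, c, d, hg, hd, hn⟩ := sf n t f M k e m R hM hFR hR hMl hmt χ hχ P hP hk he hty'
    exact hn (vq n t f M k e m R hM hFR hR hMl χ hχ P hP hk he hty' h1 a b c d hg hd)
  -- all types but `3`, `7`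
  have main2 : ∀ (j : ℕ) (χ : Ideal (OO n t) → Om), (j < 8 ∧ j ≠ 3 ∧ j ≠ 7) →
      IsChi (3 * f) χ → TyZ P f χ j →
      ∃ N0 : ℕ, ∀ N : ℕ, N0 ≤ N → ∀ T : Finset (OO n t), IsRep f N T → ∀ D : Finset (Ideal (OO n t)),
        IsDS f N D → ∃ d : Gal(Om/ℚ), IsD n t f P d ∧
          ¬ MP P (∑ c ∈ D, χ c * ((kap (uN f N m T c) d).val : Om)) := by
    intro j χ hj hχ hty
    by_cases hj4 : j < 4
    · obtain ⟨N0, hN0⟩ := main (j + 1) 0 χ (by omega) (Or.inl rfl) hχ (by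
        rw [Nat.add_sub_cancel]
        exact hty)
      refine ⟨N0, fun N hN T hT D hD => ?_⟩
      obtain ⟨d, hd, hn⟩ := hN0 N hN T hT D hD
      refine ⟨d, hd, ?_⟩
      have e : ∑ c ∈ D, χ c * oN c ^ 0 * ((kap (uN f N m T c) d).val : Om) =
          ∑ c ∈ D, χ c * ((kap (uN f N m T c) d).val : Om) := by
        refine Finset.sum_congr rfl fun c _ => ?_
        rw [pow_zero, mul_one]
      rwa [e] at hn
    · obtain ⟨N0, hN0⟩ := main (j - 3) 1 (fun b => χ b * oN b) (by omega) (Or.inr rfl)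
        (chi_oN hf0 hχ) (by
          intro v hv hc
          change χ (sp v) * oN (sp v) = _
          obtain ⟨i, rfl⟩ : ∃ i, j = 4 + i := ⟨j - 4, by omega⟩
          have e1 : 4 + i - 3 - 1 = i := by omega
          have h8 : zt P v ^ 8 = 1 := ((h0.2 n t P hP v v).2 hc hc).1
          rw [hty v hv hc, oN_sp h0 hP hc, e1]
          linear_combination zt P v ^ i * h8)
      refine ⟨N0, fun N hN T hT D hD => ?_⟩
      obtain ⟨d, hd, hn⟩ := hN0 N hN T hT D hD
      refine ⟨d, hd, ?_⟩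
      have e : ∑ c ∈ D, (fun b => χ b * oN b) c * oN c ^ 1 * ((kap (uN f N m T c) d).val : Om) =
          ∑ c ∈ D, χ c * ((kap (uN f N m T c) d).val : Om) := by
        refine Finset.sum_congr rfl fun c hc => ?_
        have h2 := oN_sq (hD.mem c hc).2.1
        linear_combination χ c * ((kap (uN f N m T c) d).val : Om) * h2
      rwa [e] at hn
  obtain ⟨j, hj, hty⟩ := chT h0 hP hM.toFok hχ
  by_cases hj3 : j = 3 ∨ j = 7
  · -- the cube
    obtain ⟨j', hj', hty'⟩ : ∃ j' : ℕ, (j' < 8 ∧ j' ≠ 3 ∧ j' ≠ 7) ∧ TyZ P f (fun b => χ b ^ 3) j' := by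
      rcases hj3 with rfl | rfl
      · refine ⟨1, by norm_num, fun v hv hc => ?_⟩
        change χ (sp v) ^ 3 = _
        have h8 : zt P v ^ 8 = 1 := ((h0.2 n t P hP v v).2 hc hc).1
        rw [hty v hv hc]
        linear_combination zt P v * h8
      · refine ⟨5, by norm_num, fun v hv hc => ?_⟩
        change χ (sp v) ^ 3 = _
        have h8 : zt P v ^ 8 = 1 := ((h0.2 n t P hP v v).2 hc hc).1
        rw [hty v hv hc]
        linear_combination (zt P v ^ 13 + zt P v ^ 5) * h8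
    obtain ⟨N0, hN0⟩ := main2 j' (fun b => χ b ^ 3) hj' (chi_cube hχ) hty'
    refine ⟨max N0 2, le_max_right _ _, fun N hN T hT D hD => ?_⟩
    obtain ⟨d, hd, hn⟩ := hN0 N ((le_max_left _ _).trans hN) T hT D hD
    refine ⟨d, hd.stab, hd.fix, fun h1 => hn ?_⟩
    have h3 := SG_cube hP.2 D (fun c => χ c * ((kap (uN f N m T c) d).val : Om))
      fun c _ => (chi_vp hχ c).mul (DI.VP.nat _)
    have h4 : MP P ((∑ c ∈ D, χ c * ((kap (uN f N m T c) d).val : Om)) ^ 3) := by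
      rw [pow_succ]
      exact DI.MP.mul_left (h1.vp.pow 2) h1
    have h5 := h4.sub h3
    rw [sub_sub_cancel] at h5
    have h6 : MP P (∑ c ∈ D, χ c ^ 3 * (((kap (uN f N m T c) d).val : Om) ^ 3 -
        ((kap (uN f N m T c) d).val : Om))) :=
      DI.MP.sum _ _ fun c _ => DI.MP.mul_left ((chi_vp hχ c).pow 3) (SG_kap hP.2 _)
    have h7 := h5.sub h6
    rw [← Finset.sum_sub_distrib] at h7
    have e : ∑ c ∈ D, ((χ c * ((kap (uN f N m T c) d).val : Om)) ^ 3 -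
        χ c ^ 3 * (((kap (uN f N m T c) d).val : Om) ^ 3 - ((kap (uN f N m T c) d).val : Om))) =
        ∑ c ∈ D, (fun b => χ b ^ 3) c * ((kap (uN f N m T c) d).val : Om) := by
      refine Finset.sum_congr rfl fun c _ => ?_
      ring
    rw [e] at h7
    exact h7
  · obtain ⟨N0, hN0⟩ := main2 j χ (by omega) hχ hty
    refine ⟨max N0 2, le_max_right _ _, fun N hN T hT D hD => ?_⟩
    obtain ⟨d, hd, hn⟩ := hN0 N ((le_max_left _ _).trans hN) T hT D hD
    exact ⟨d, hd.stab, hd.fix, hn⟩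

end Pool.Agent.DM.G
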