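import Pool.Agent.Lib.DM.G.HNf

/-!
# Theorem DM, part G, module T3: `3` divides `|T|` for `2 ≤ N`
-/

set_option autoImplicit false

open scoped Pointwise

noncomputable section

namespace Pool.Agent.DM.G

open Pool.Agent.MuZ Pool.Agent.FW Pool.Agent.DN
open Pool.Agent.DI (io ofC io_inj exists_io io_ofC ofC_io VP MP UP TP ex)
open Pool.Agent.DS.G (IsRp UR unit_inv)

variable {k t : ℕ}

/-- `3` divides the number of representatives. -/
def C_T3 : Prop :=
  ∀ (k t : ℕ) [SqN k t] (f N : ℕ) (T : Finset (OO k t)), Fok f → 2 ≤ N → IsRep f N T → 3 ∣ T.card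

/-- A map with `e ^ 3 = 1` without fixed points. -/
private theorem T3_card {α : Type} [Fintype α] [DecidableEq α] (e : α → α)
    (h3 : ∀ x, e (e (e x)) = x) (h1 : ∀ x, e x ≠ x) : 3 ∣ Fintype.card α := by
  have : Fact (Nat.Prime 3) := ⟨Nat.prime_three⟩
  let E : Function.End α := e
  have h2 : E ^ 3 ^ 1 = 1 := by
    funext x
    exact h3 x
  have h4 := Equiv.Perm.card_fixedPoints_modEq h2
  have h5 : Fintype.card (Function.fixedPoints E) = 0 := by
    rw [Fintype.card_eq_zero_iff]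
    exact ⟨fun x => h1 x.1 x.2⟩
  have h6 : Fintype.card α ≡ 0 [MOD 3] := h4.trans (by
    rw [h5])
  exact (Nat.modEq_zero_iff_dvd).1 h6

/-- `2 w - t`, of trace `0`. -/
private theorem T3_nm (c : ℤ) :
    Nm (1 + (c : OO k t) * ⟨-t, 2⟩) = 1 + c ^ 2 * Nm (⟨-t, 2⟩ : OO k t) := by
  have e1 : (1 + (c : OO k t) * ⟨-t, 2⟩ : OO k t) = ⟨1 + c * (-t), c * 2⟩ := by
    apply ext'
    · rw [QuadraticAlgebra.re_add, re_one, re_mul, re_int, im_int]
      ring
    · rw [QuadraticAlgebra.im_add, im_one, im_mul, re_int, im_int]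
      ring
  rw [e1]
  unfold Nm
  ring

theorem aT3 : C_T3 := by
  classical
  intro k t _ f N T hf hN hT0
  have hT := isRep_iff.1 hT0
  obtain ⟨-, -, hmul, -, hcong, -, -, -, hcM, -, hHf, -⟩ := aHNf k t f N (by omega)
  set M : ℕ := f * 3 ^ N with hM
  obtain ⟨n, rfl⟩ : ∃ n, N = n + 2 := ⟨N - 2, by omega⟩
  -- the element `v = 1 + f 3 ^ (N - 1) (2 w - t)`
  set c : ℕ := f * 3 ^ (n + 1) with hc
  have hMc : M = c * 3 := by
    rw [hM, hc]
    ring
  have hcpos : 0 < c := Nat.mul_pos hf.pos (pow_pos (by norm_num) _)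
  set x : OO k t := ⟨-t, 2⟩ with hx
  set v : OO k t := 1 + (c : OO k t) * x with hv
  have hvH : HN f (n + 2) v := by
    refine ⟨hHf v ?_, ?_⟩
    · have e : v - 1 = ((3 * f : ℕ) : OO k t) * (((3 ^ n : ℕ) : OO k t) * x) := by
        rw [hv, hc]
        push_cast
        ring
      rw [e]
      exact dvd_mul_right _ _
    · have h1 := T3_nm (k := k) (t := t) (c : ℤ)
      have e : Nm v = 1 + (c : ℤ) ^ 2 * Nm x := by
        rw [← h1, hv, Int.cast_natCast]
      rw [e, add_sub_cancel_left]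
      refine Dvd.dvd.mul_right ?_ _
      refine ⟨(f : ℤ) ^ 2 * 3 ^ n, ?_⟩
      rw [hc]
      push_cast
      ring
  have hv3 : (M : OO k t) ∣ v ^ 3 - 1 := by
    refine ⟨x + (c : OO k t) * x ^ 2 + (((f ^ 2 * 3 ^ (2 * n + 1) : ℕ)) : OO k t) * x ^ 3, ?_⟩
    rw [hv, hMc, hc]
    push_cast
    ring
  have hex : ∀ h : T, ∃ h' : T, UR (M : OO k t) (v * (h : OO k t)) (h' : OO k t) := by
    intro h
    obtain ⟨h', hh', h3⟩ := hT.ex (v * h) (hmul v h hvH (hT.mem h h.2))
    exact ⟨⟨h', hh'⟩, h3⟩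
  choose e he using hex
  have h3 : ∀ h : T, e (e (e h)) = h := by
    intro h
    apply Subtype.ext
    apply hT.uni _ (e (e (e h))).2 _ h.2
    have e1 := (he h).mul (v * v)
    have e2 := (he (e h)).mul v
    have e3 := he (e (e h))
    have e4 : UR (M : OO k t) (v * v * (v * h)) h := by
      refine UR.of_dvd ?_
      have e5 : v * v * (v * h) - h = (v ^ 3 - 1) * h := by ring
      rw [e5]
      exact hv3.mul_right _
    have e5 : v * v * (e h : OO k t) = v * (v * (e h : OO k t)) := by ring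
    rw [e5] at e1
    exact ((e4.symm.trans e1).trans (e2.trans e3)).symm
  have hf20 : 20 ≤ f := Nat.le_of_dvd hf.pos hf.dvd
  have hMf : (f : OO k t) ∣ (M : OO k t) := Nat.cast_dvd_cast (dvd_mul_right _ _)
  have h9 := (aO7 k t f hf.pos).2.2.2.2.2.2.2.2.1
  have hfix : ∀ h : T, e h ≠ h := by
    intro h hh
    obtain ⟨u, hu, e1⟩ := he h
    rw [hh] at e1
    have e2 : v * (h : OO k t) - u * h = (h : OO k t) * (v - u) := by
      ring
    rw [e2] at e1
    obtain ⟨-, -, -, -, -, hcan, -⟩ := DS.G.aCop k t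
    have e3 := hcan _ _ _ (hcM h (hT.mem h h.2)) e1
    have hvf : (f : OO k t) ∣ v - 1 := by
      rw [hv, hc]
      refine ⟨((3 ^ (n + 1) : ℕ) : OO k t) * x, ?_⟩
      push_cast
      ring
    have hu1 : (f : OO k t) ∣ u - 1 := by
      have h5 := dvd_sub hvf (hMf.trans e3)
      have e2 : v - 1 - (v - u) = u - 1 := by ring
      rwa [e2] at h5
    rw [h9 u (by omega) hu hu1] at e3
    have e2' : v - 1 = (c : OO k t) * x := by
      rw [hv]
      ring
    rw [e2', nat_dvd_iff] at e3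
    have e4 : ((c : OO k t) * x).im = (c : ℤ) * 2 := by
      rw [im_mul, re_nat, im_nat, hx]
      ring
    have e5 := e3.2
    rw [e4, hMc] at e5
    push_cast at e5
    have e6 : (3 : ℤ) ∣ 2 := (mul_dvd_mul_iff_left (by exact_mod_cast hcpos.ne')).1 e5
    norm_num at e6
  have hfin := T3_card e h3 hfix
  rwa [Fintype.card_coe] at hfin

end Pool.Agent.DM.G
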