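import Pool.Agent.Lib.DM.G.T3

/-!
# Theorem DM, part G, module TwR: two systems of representatives of `H_N` modulo `f 3 ^ (N + 1)`
-/

set_option autoImplicit false

open scoped Pointwise

noncomputable section

namespace Pool.Agent.DM.G

open Pool.Agent.MuZ Pool.Agent.FW Pool.Agent.DN
open Pool.Agent.DI (io ofC io_inj exists_io io_ofC ofC_io VP MP UP TP ex)
open Pool.Agent.DS.G (IsRp UR unit_inv)

variable {k t : ℕ}

/-- The nine representatives of `O/3`. -/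
def E3 (k t : ℕ) : Finset (OO k t) := by
  classical
  exact (Finset.range 3 ×ˢ Finset.range 3).image (fun p : ℕ × ℕ => (⟨(p.1 : ℤ), (p.2 : ℤ)⟩ : OO k t))

theorem mem_E3 (e : OO k t) : e ∈ E3 k t ↔ ∃ x y : ℕ, x < 3 ∧ y < 3 ∧ e = ⟨x, y⟩ := by
  classical
  unfold E3
  rw [Finset.mem_image]
  constructor
  · rintro ⟨p, hp, rfl⟩
    obtain ⟨h1, h2⟩ := Finset.mem_product.1 hp
    exact ⟨p.1, p.2, Finset.mem_range.1 h1, Finset.mem_range.1 h2, rfl⟩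
  · rintro ⟨x, y, hx, hy, rfl⟩
    exact ⟨(x, y), Finset.mem_product.2 ⟨Finset.mem_range.2 hx, Finset.mem_range.2 hy⟩, rfl⟩

private theorem E3_dvd (x : OO k t) : (3 : OO k t) ∣ x ↔ (3 : ℤ) ∣ x.re ∧ (3 : ℤ) ∣ x.im := by
  have := nat_dvd_iff 3 x
  simpa using this

theorem E3_uni (e e' : OO k t) (he : e ∈ E3 k t) (he' : e' ∈ E3 k t) (h : (3 : OO k t) ∣ e - e') :
    e = e' := by
  obtain ⟨x, y, hx, hy, rfl⟩ := (mem_E3 e).1 he
  obtain ⟨x', y', hx', hy', rfl⟩ := (mem_E3 e').1 he'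
  rw [E3_dvd, QuadraticAlgebra.re_sub, QuadraticAlgebra.im_sub] at h
  obtain ⟨h1, h2⟩ := h
  have h1' : (3 : ℤ) ∣ x - x' := h1
  have h2' : (3 : ℤ) ∣ y - y' := h2
  have e1 : x = x' := by omega
  have e2 : y = y' := by omega
  rw [e1, e2]

theorem E3_ex (w : OO k t) : ∃ e ∈ E3 k t, ∃ y : OO k t, w = e + 3 * y := by
  refine ⟨⟨((w.re % 3).toNat : ℤ), ((w.im % 3).toNat : ℤ)⟩,
    (mem_E3 _).2 ⟨(w.re % 3).toNat, (w.im % 3).toNat, by omega, by omega, rfl⟩, ?_⟩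
  have h : (3 : OO k t) ∣ w - ⟨((w.re % 3).toNat : ℤ), ((w.im % 3).toNat : ℤ)⟩ := by
    rw [E3_dvd, QuadraticAlgebra.re_sub, QuadraticAlgebra.im_sub]
    change (3 : ℤ) ∣ w.re - ((w.re % 3).toNat : ℤ) ∧ (3 : ℤ) ∣ w.im - ((w.im % 3).toNat : ℤ)
    omega
  obtain ⟨y, hy⟩ := h
  exact ⟨y, by rw [← hy]; ring⟩

/-- Products over two systems of representatives of `H_N` modulo `f 3 ^ (N + 1)`. -/
def C_TwR : Prop :=
  ∀ (k t : ℕ) [SqN k t] (f N : ℕ) (T T' : Finset (OO k t)) (a : OO k t), Fok f → 1 ≤ N →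
    IsRep f N T → IsRep f (N + 1) T' → HN f N a → ¬ HN f (N + 1) a →
    ∀ (A : Type) [CommMonoid A] (F : OO k t → A),
    (∀ v u : OO k t, UR ((f * 3 ^ (N + 1) : ℕ) : OO k t) v u → F v = F u) →
    (∏ h ∈ T', F h) * (∏ h ∈ T', F (a * h)) * (∏ h ∈ T', F (a * (a * h))) =
      ∏ h ∈ T, ∏ e ∈ E3 k t, F (h + (f * 3 ^ N : ℕ) * e)

private lemma TwR_sel {N : ℕ} {ν δ : ℤ} (h1 : (3 : ℤ) ^ N ∣ ν) (h2 : (3 : ℤ) ^ N ∣ δ)
    (h3 : ¬ (3 : ℤ) ^ (N + 1) ∣ δ) : ∃ i : ℕ, i < 3 ∧ (3 : ℤ) ^ (N + 1) ∣ ν - i * δ := by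
  obtain ⟨x, rfl⟩ := h1
  obtain ⟨y, rfl⟩ := h2
  have h4 : ¬ (3 : ℤ) ∣ y := fun h => h3 (by
    rw [pow_succ]
    exact mul_dvd_mul_left _ h)
  have key : ∀ i : ℕ, (3 : ℤ) ∣ x - i * y → (3 : ℤ) ^ (N + 1) ∣ 3 ^ N * x - i * (3 ^ N * y) := by
    intro i h
    have e : (3 : ℤ) ^ N * x - i * (3 ^ N * y) = 3 ^ N * (x - i * y) := by ring
    rw [e, pow_succ]
    exact mul_dvd_mul_left _ h
  have h5 : (3 : ℤ) ∣ x - (0 : ℕ) * y ∨ (3 : ℤ) ∣ x - (1 : ℕ) * y ∨ (3 : ℤ) ∣ x - (2 : ℕ) * y := by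
    push_cast
    have h6 : y % 3 = 1 ∨ y % 3 = 2 := by omega
    have h7 : x % 3 = 0 ∨ x % 3 = 1 ∨ x % 3 = 2 := by omega
    rcases h6 with h6 | h6 <;> rcases h7 with h7 | h7 | h7 <;> omega
  rcases h5 with h | h | h
  · exact ⟨0, by norm_num, key 0 h⟩
  · exact ⟨1, by norm_num, key 1 h⟩
  · exact ⟨2, by norm_num, key 2 h⟩

/-- The norm of `v ^ i * u` modulo `3 ^ (N + 1)`. -/
private lemma TwR_nm {N : ℕ} (hN : 1 ≤ N) {v u : OO k t} (hv : (3 : ℤ) ^ N ∣ Nm v - 1)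
    (hu : (3 : ℤ) ^ N ∣ Nm u - 1) (i : ℕ) :
    (3 : ℤ) ^ (N + 1) ∣ Nm (v ^ i * u) - (1 + i * (Nm v - 1) + (Nm u - 1)) := by
  have h0 : (3 : ℤ) ^ (N + 1) ∣ 3 ^ N * 3 ^ N := by
    rw [← pow_add]
    exact pow_dvd_pow _ (by omega)
  obtain ⟨c, hc⟩ := h0
  obtain ⟨x, hx⟩ := hv
  obtain ⟨y, hy⟩ := hu
  induction i with
  | zero => simp
  | succ i ih =>
    obtain ⟨z, hz⟩ := ih
    refine ⟨z + c * (i * x ^ 2 + x * y) + z * 3 ^ N * x, ?_⟩
    rw [pow_succ', mul_assoc, Nm_mul]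
    push_cast
    linear_combination Nm v * hz +
      ((3 : ℤ) ^ (N + 1) * z + i * (Nm v - 1) + (Nm u - 1)) * hx + 3 ^ N * x * i * hx +
      3 ^ N * x * hy + (i * x ^ 2 + x * y) * hc

private theorem TwR_cancel (n : ℕ) (hn : n ≠ 0) (x y : OO k t) (h : (n : OO k t) * x = n * y) :
    x = y := by
  have h0 : (n : ℤ) ≠ 0 := by exact_mod_cast hn
  have h1 := congrArg QuadraticAlgebra.re h
  have h2 := congrArg QuadraticAlgebra.im h
  simp only [re_mul, im_mul, re_nat, im_nat, zero_mul, mul_zero, add_zero, sub_zero] at h1 h2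
  exact ext' (mul_left_cancel₀ h0 h1) (mul_left_cancel₀ h0 h2)

theorem aTwR : C_TwR := by
  classical
  intro k t _ f N T T' a hf hN hT0 hT0' ha ha' A _ F hF
  have hT := isRep_iff.1 hT0
  have hT' := isRep_iff.1 hT0'
  obtain ⟨-, -, -, -, cop2, cop3, -⟩ := DS.G.aCop k t
  obtain ⟨⟨-, h1N⟩, -, hmul, -, hcg, -, hinv, -, -, hlow, -⟩ := aHNf k t f N hN
  obtain ⟨-, -, -, -, -, -, -, -, -, -, -, hc1, hc2, -⟩ := aHNf k t f (N + 1) (by omega)
  set M₀ : OO k t := ((f * 3 ^ N : ℕ) : OO k t) with hM₀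
  set M : OO k t := ((f * 3 ^ (N + 1) : ℕ) : OO k t) with hM
  have hMM : M = M₀ * 3 := by
    rw [hM, hM₀]
    push_cast
    ring
  have hd0 : M₀ ∣ M := Dvd.intro _ hMM.symm
  have hpos : 0 < f * 3 ^ (N + 1) := Nat.mul_pos hf.pos (pow_pos (by norm_num) _)
  have hpos0 : f * 3 ^ N ≠ 0 := (Nat.mul_pos hf.pos (pow_pos (by norm_num) _)).ne'
  have hP : ∀ v : OO k t, HN f N v → Cop v (f * 3 ^ (N + 1)) := fun v hv => hc2 v hv.1.1
  have hpow : ∀ v : OO k t, HN f N v → ∀ i : ℕ, HN f N (v ^ i) := by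
    intro v hv i
    induction i with
    | zero => rwa [pow_zero]
    | succ i ih =>
      rw [pow_succ]
      exact hmul _ _ ih hv
  have hNc : ∀ v u : OO k t, M ∣ v - u → (3 : ℤ) ^ (N + 1) ∣ Nm v - Nm u := by
    intro v u h
    have h1 := Nm_congr h
    refine Dvd.dvd.trans ?_ h1
    push_cast
    exact dvd_mul_left _ _
  obtain ⟨b, -, -, hb⟩ := cop2 a _ hpos (hP a ha)
  have hbN : HN f N b := hinv a b ha (hd0.trans hb)
  -- norms of the elements of the first system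
  have hnm : ∀ h ∈ T', ∀ i : ℕ, (3 : ℤ) ^ (N + 1) ∣ Nm (a ^ i * h) - (1 + i * (Nm a - 1)) := by
    intro h hh i
    have h1 := TwR_nm hN ha.2 (hlow h (hT'.mem h hh)).2 i
    have h2 := (hT'.mem h hh).2
    have e : Nm (a ^ i * h) - (1 + i * (Nm a - 1)) =
        Nm (a ^ i * h) - (1 + i * (Nm a - 1) + (Nm h - 1)) + (Nm h - 1) := by ring
    rw [e]
    exact dvd_add h1 h2
  have hij : ∀ i j : ℕ, i < 3 → j < 3 → (3 : ℤ) ^ (N + 1) ∣ ((i : ℤ) - j) * (Nm a - 1) → i = j := by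
    intro i j hi hj h
    obtain ⟨x, hx⟩ := ha.2
    have hx3 : ¬ (3 : ℤ) ∣ x := fun h3 => ha' ⟨ha.1, by
      rw [hx, pow_succ]
      exact mul_dvd_mul_left _ h3⟩
    rw [hx, mul_left_comm, pow_succ] at h
    have h4 : (3 : ℤ) ∣ ((i : ℤ) - j) * x :=
      (mul_dvd_mul_iff_left (pow_ne_zero N (by norm_num : (3 : ℤ) ≠ 0))).1 h
    rcases (Int.prime_three).dvd_or_dvd h4 with h5 | h5
    · omega
    · exact absurd h5 hx3
  have huni : ∀ h ∈ T', ∀ h' ∈ T', ∀ i j : ℕ, i < 3 → j < 3 → UR M (a ^ i * h) (a ^ j * h') →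
      h = h' ∧ i = j := by
    rintro h hh h' hh' i j hi hj ⟨u, hu, hd⟩
    have e1 : i = j := by
      refine hij i j hi hj ?_
      have h1 := hNc _ _ hd
      rw [Nm_mul u, hu, one_mul] at h1
      have h2 := hnm h hh i
      have h3 := hnm h' hh' j
      have e : ((i : ℤ) - j) * (Nm a - 1) = (Nm (a ^ i * h) - Nm (a ^ j * h')) -
          (Nm (a ^ i * h) - (1 + i * (Nm a - 1))) + (Nm (a ^ j * h') - (1 + j * (Nm a - 1))) := by
        ring
      rw [e]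
      exact dvd_add (dvd_sub h1 h2) h3
    subst e1
    have e2 : a ^ i * h - u * (a ^ i * h') = a ^ i * (h - u * h') := by ring
    rw [e2] at hd
    exact ⟨hT'.uni h hh h' hh' ⟨u, hu, cop3 _ _ _ (hP _ (hpow a ha i)) hd⟩, rfl⟩
  -- the first system
  have hS1 : IsRp (f * 3 ^ (N + 1)) (fun v => HN f N v)
      ((T' ×ˢ Finset.range 3).image (fun p : OO k t × ℕ => a ^ p.2 * p.1)) := by
    refine ⟨?_, ?_, ?_⟩
    · intro v hv
      obtain ⟨p, hp, rfl⟩ := Finset.mem_image.1 hv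
      exact hmul _ _ (hpow a ha _) (hlow _ (hT'.mem _ (Finset.mem_product.1 hp).1))
    · intro v hv
      obtain ⟨i, hi, h1⟩ := TwR_sel hv.2 ha.2 (fun h => ha' ⟨ha.1, h⟩)
      have h2 := TwR_nm hN hbN.2 hv.2 i
      have h3 : (3 : ℤ) ^ (N + 1) ∣ (Nm a - 1) + (Nm b - 1) := by
        have h4 := TwR_nm hN ha.2 hbN.2 1
        have h5 := hNc (a * b) 1 hb
        rw [pow_one, Nat.cast_one, one_mul] at h4
        rw [Nm_one] at h5
        have e : (Nm a - 1) + (Nm b - 1) = (Nm (a * b) - 1) -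
            (Nm (a * b) - (1 + (Nm a - 1) + (Nm b - 1))) := by ring
        rw [e]
        exact dvd_sub h5 h4
      have h4 : HN f (N + 1) (b ^ i * v) := by
        refine ⟨(hmul _ _ (hpow b hbN i) hv).1, ?_⟩
        have e : Nm (b ^ i * v) - 1 = (Nm (b ^ i * v) - (1 + i * (Nm b - 1) + (Nm v - 1))) +
            (Nm v - 1 - i * (Nm a - 1)) + i * ((Nm a - 1) + (Nm b - 1)) := by ring
        rw [e]
        exact dvd_add (dvd_add h2 h1) (Dvd.dvd.mul_left h3 _)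
      obtain ⟨h, hh, u, hu, h5⟩ := hT'.ex _ h4
      refine ⟨a ^ i * h, Finset.mem_image.2 ⟨(h, i),
        Finset.mem_product.2 ⟨hh, Finset.mem_range.2 hi⟩, rfl⟩, u, hu, ?_⟩
      have h6 : M ∣ (a * b) ^ i - 1 := by
        have h7 : a * b - 1 ∣ (a * b) ^ i - 1 ^ i := sub_dvd_pow_sub_pow _ _ _
        rw [one_pow] at h7
        exact hb.trans h7
      have e : v - u * (a ^ i * h) = a ^ i * (b ^ i * v - u * h) - v * ((a * b) ^ i - 1) := by
        rw [mul_pow]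
        ring
      rw [e]
      exact dvd_sub (h5.mul_left _) (h6.mul_left _)
    · intro v hv u hu hd
      obtain ⟨p, hp, rfl⟩ := Finset.mem_image.1 hv
      obtain ⟨q, hq, rfl⟩ := Finset.mem_image.1 hu
      obtain ⟨hp1, hp2⟩ := Finset.mem_product.1 hp
      obtain ⟨hq1, hq2⟩ := Finset.mem_product.1 hq
      obtain ⟨e1, e2⟩ := huni _ hp1 _ hq1 _ _ (Finset.mem_range.1 hp2) (Finset.mem_range.1 hq2) hd
      rw [e1, e2]
  -- the second system
  have hf20 : 20 ≤ f := Nat.le_of_dvd hf.pos hf.dvd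
  have hM₀f : (f : OO k t) ∣ M₀ := Nat.cast_dvd_cast (dvd_mul_right _ _)
  have h9 := (aO7 k t f hf.pos).2.2.2.2.2.2.2.2.1
  have huni2 : ∀ h ∈ T, ∀ e ∈ E3 k t, ∀ h' ∈ T, ∀ e' ∈ E3 k t,
      UR M (h + M₀ * e) (h' + M₀ * e') → h = h' ∧ e = e' := by
    rintro h hh e he h' hh' e' he' ⟨u, hu, hd⟩
    have e1 : h = h' := by
      refine hT.uni h hh h' hh' ⟨u, hu, ?_⟩
      have e2 : h - u * h' = (h + M₀ * e - u * (h' + M₀ * e')) - M₀ * (e - u * e') := by ring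
      rw [e2]
      exact dvd_sub (hd0.trans hd) (dvd_mul_right _ _)
    subst e1
    have hu1 : u = 1 := by
      refine h9 u (by omega) hu (cop3 h _ _ (cop_dvd (hP h (hT.mem h hh)) (dvd_mul_right _ _)) ?_)
      have e2 : h * (u - 1) = M₀ * (e - u * e') - (h + M₀ * e - u * (h + M₀ * e')) := by ring
      rw [e2]
      exact hM₀f.trans (dvd_sub (dvd_mul_right _ _) (hd0.trans hd))
    subst hu1
    rw [one_mul, add_sub_add_left_eq_sub] at hd
    refine ⟨rfl, E3_uni e e' he he' ?_⟩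
    obtain ⟨y, hy⟩ := hd
    refine ⟨y, TwR_cancel _ hpos0 _ _ ?_⟩
    rw [← hM₀]
    linear_combination hy + y * hMM
  have hS2 : IsRp (f * 3 ^ (N + 1)) (fun v => HN f N v)
      ((T ×ˢ E3 k t).image (fun p : OO k t × OO k t => p.1 + M₀ * p.2)) := by
    refine ⟨?_, ?_, ?_⟩
    · intro v hv
      obtain ⟨p, hp, rfl⟩ := Finset.mem_image.1 hv
      obtain ⟨hp1, hp2⟩ := Finset.mem_product.1 hp
      refine hcg p.1 _ ?_ (hT.mem _ hp1)
      rw [add_sub_cancel_left]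
      exact dvd_mul_right _ _
    · intro v hv
      obtain ⟨h, hh, u, hu, x, hx⟩ := hT.ex v hv
      obtain ⟨hi, -⟩ := unit_inv hu
      obtain ⟨e, he, y, hy⟩ := E3_ex (cjO u * x)
      refine ⟨h + M₀ * e, Finset.mem_image.2 ⟨(h, e), Finset.mem_product.2 ⟨hh, he⟩, rfl⟩, u, hu,
        u * y, ?_⟩
      rw [← hM₀] at hx
      rw [← hM]
      have hx' : u * (cjO u * x) = x := by rw [← mul_assoc, hi, one_mul]
      linear_combination hx + M₀ * u * hy - M₀ * hx' - u * y * hMM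
    · intro v hv u hu hd
      obtain ⟨p, hp, rfl⟩ := Finset.mem_image.1 hv
      obtain ⟨q, hq, rfl⟩ := Finset.mem_image.1 hu
      obtain ⟨hp1, hp2⟩ := Finset.mem_product.1 hp
      obtain ⟨hq1, hq2⟩ := Finset.mem_product.1 hq
      obtain ⟨e1, e2⟩ := huni2 _ hp1 _ hp2 _ hq1 _ hq2 hd
      rw [e1, e2]
  have key := (DS.G.aRp k t).1 (f * 3 ^ (N + 1)) (fun v => HN f N v) _ _ A F hS1 hS2
    (fun v u _ _ h => hF v u h)
  rw [Finset.prod_image, Finset.prod_image, Finset.prod_product, Finset.prod_product] at key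
  · rw [← key, ← Finset.prod_mul_distrib, ← Finset.prod_mul_distrib]
    refine Finset.prod_congr rfl fun h _ => ?_
    rw [Finset.prod_range_succ, Finset.prod_range_succ, Finset.prod_range_one]
    simp only [pow_zero, pow_one, one_mul, pow_two, mul_assoc]
  · intro p hp q hq h
    rw [Finset.mem_coe] at hp hq
    obtain ⟨hp1, hp2⟩ := Finset.mem_product.1 hp
    obtain ⟨hq1, hq2⟩ := Finset.mem_product.1 hq
    have h1 : p.1 + M₀ * p.2 = q.1 + M₀ * q.2 := h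
    obtain ⟨e1, e2⟩ := huni2 _ hp1 _ hp2 _ hq1 _ hq2 (by
      rw [h1]
      exact UR.refl _ _)
    exact Prod.ext e1 e2
  · intro p hp q hq h
    rw [Finset.mem_coe] at hp hq
    obtain ⟨hp1, hp2⟩ := Finset.mem_product.1 hp
    obtain ⟨hq1, hq2⟩ := Finset.mem_product.1 hq
    have h1 : a ^ p.2 * p.1 = a ^ q.2 * q.1 := h
    obtain ⟨e1, e2⟩ := huni _ hp1 _ hq1 _ _ (Finset.mem_range.1 hp2) (Finset.mem_range.1 hq2) (by
      rw [h1]
      exact UR.refl _ _)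
    exact Prod.ext e1 e2

end Pool.Agent.DM.G
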