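import Pool.Agent.Lib.DM.G.CT
import Pool.Agent.Lib.DM.G.TwR

/-!
# Theorem DM, part G, module Two: the norm relation of the elliptic units
-/

set_option autoImplicit false

open scoped Pointwise

noncomputable section

namespace Pool.Agent.DM.G

open Pool.Agent.MuZ Pool.Agent.FW Pool.Agent.DN
open Pool.Agent.DI (io ofC io_inj exists_io io_ofC ofC_io VP MP UP TP ex)
open Pool.Agent.DS.G (IsRp UR unit_inv)

variable {k t : ℕ}

/-- The norm relation. -/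
def C_Two : Prop :=
  ∀ (k t : ℕ) [SqN k t] (f : ℕ) (m : Ideal (OO k t)) (N : ℕ) (T : Finset (OO k t)), FM f m → 2 ≤ N →
    IsRep f N T → ∀ b : Ideal (OO k t), b ≠ ⊥ → PrI b (3 * f) → ∀ T' : Finset (OO k t),
    IsRep f (N + 1) T' → ∀ s ∈ GK k t, ∀ a : Ideal (OO k t), Psi s (f * 3 ^ (N + 1)) a → HPN f N a →
      ¬ HPN f (N + 1) a → ∃ c ∈ Mf k t f, c ≠ 0 ∧ uN f (N + 1) m T' b * s (uN f (N + 1) m T' b) *
            s (s (uN f (N + 1) m T' b)) = c ^ 3 * uN f N m T b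

/-- The points `e / 3` are a system of representatives of `Lam (3 b) / Lam b`. -/
theorem sys3 [SqN k t] (b : Ideal (OO k t)) (x w : OO k t) (hx : x ∈ b) (hxw : x - 1 = 3 * w)
    (R : Finset ℂ) (hR : ∀ u : ℂ, u ∈ R ↔ ∃ e ∈ E3 k t, toC e / 3 = u) :
    IsSys (sp 3) b R := by
  refine ⟨?_, ?_, ?_⟩
  · intro u hu
    obtain ⟨e, -, rfl⟩ := (hR u).1 hu
    rw [lam_sp, toC_three]
    have : (3 : ℂ) * (toC e / 3) = toC e := by ring
    rw [this]
    exact lam_toC b e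
  · intro z hz
    rw [lam_sp, toC_three] at hz
    obtain ⟨w', hw'⟩ := hz x hx
    obtain ⟨e, he, y, hy⟩ := E3_ex w'
    refine ⟨toC e / 3, (hR _).2 ⟨e, he, rfl⟩, ?_⟩
    have h1 : toC x = 1 + 3 * toC w := by
      have : x = 1 + 3 * w := by linear_combination hxw
      rw [this, toC_add, toC_mul, toC_one, toC_three]
    have h2 : toC w' = toC e + 3 * toC y := by
      rw [hy, toC_add, toC_mul, toC_three]
    rw [h1, h2] at hw'
    have h3 : z - toC e / 3 = toC y - toC w * (3 * z) := by linear_combination hw' / 3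
    rw [h3]
    exact lam_sub (lam_toC b y) (lam_mul w hz)
  · rintro u hu u' hu' h
    obtain ⟨e, he, rfl⟩ := (hR u).1 hu
    obtain ⟨e', he', rfl⟩ := (hR u').1 hu'
    obtain ⟨c, hc⟩ := h x hx
    have h1 : x * (e - e') = 3 * c := by
      apply toC_inj
      rw [toC_mul, toC_sub, toC_mul, toC_three, ← hc]
      ring
    have h2 : (3 : OO k t) ∣ e - e' := by
      refine ⟨c - w * (e - e'), ?_⟩
      linear_combination h1 - (e - e') * hxw
    rw [E3_uni e e' he he' h2]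

theorem aTwo (D8 : S_D8) (cUBa : C_UBa) (cUBb : C_UBb) (cCT : C_CT) : C_Two := by
  intro k t _ f m N T hF hN hT b hb hPb T' hT' s hs a ha hHN hnHN
  classical
  have hf0 := hF.pos
  obtain ⟨o1, o2, -, o4, o5⟩ := aO6 k t
  obtain ⟨q1, q2, q3, q4, q5, q6, q7, q8, q9, q10, -, -, q13, hd1⟩ := aHNf k t f N (by omega)
  obtain ⟨-, -, -, -, -, -, -, -, -, -, -, -, q13', hd2⟩ := aHNf k t f (N + 1) (by omega)
  have h60f : 60 ∣ 3 * f := by
    obtain ⟨c, hc⟩ := hF.dvd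
    exact ⟨c, by rw [hc]; ring⟩
  have h30f : 30 ∣ 3 * f := (by norm_num : 30 ∣ 60).trans h60f
  have hb30 : PrI b 30 := pri_dvd h30f hPb
  have hm30 : PrI m 30 := pri_dvd h30f hF.prm
  have hM : 0 < f * 3 ^ N := Nat.mul_pos hf0 (by positivity)
  have hM' : 0 < f * 3 ^ (N + 1) := Nat.mul_pos hf0 (by positivity)
  have hMC : ((f * 3 ^ N : ℕ) : ℂ) ≠ 0 := Nat.cast_ne_zero.2 hM.ne'
  have hMC' : ((f * 3 ^ (N + 1) : ℕ) : ℂ) ≠ 0 := Nat.cast_ne_zero.2 hM'.ne'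
  have hpow : f * 3 ^ N * 3 = f * 3 ^ (N + 1) := by rw [pow_succ, mul_assoc]
  have hM3 : ((f * 3 ^ (N + 1) : ℕ) : ℂ) = ((f * 3 ^ N : ℕ) : ℂ) * 3 := by
    rw [← hpow, Nat.cast_mul (f * 3 ^ N) 3]
    norm_num
  -- the element v'
  obtain ⟨v, hv0, hvH, hvR⟩ := hHN
  have copa0 : PrI a (f * 3 ^ (N + 1)) := ((o2 15 _ a).1 ha.cop).2
  have hPa : PrI a (3 * f) := pri_dvd hd2 copa0
  obtain ⟨β, hβ0, hβ1, hβC, hβR⟩ := DS.G.aRUp k t (f * 3 ^ N) 3 (sp v) a hM (by norm_num)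
    (by rwa [Ne, Ideal.span_singleton_eq_bot]) ha.ne
    (by rw [hpow]; exact (o4 _ v hM').2 (q13' v (q8 v hvH.1))) (by rw [hpow]; exact copa0) hvR
  rw [hpow] at hβC hβR
  rw [show sp β * sp v = sp (β * v) from Ideal.span_singleton_mul_span_singleton _ _] at hβR
  set v' : OO k t := β * v with hv'
  have hv'0 : v' ≠ 0 := mul_ne_zero hβ0 hv0
  have hv'H : HN f N v' := by
    refine q5 v v' ?_ hvH
    have e : v' - v = (β - 1) * v := by
      rw [hv']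
      ring
    rw [e]
    exact hβ1.mul_right _
  have hv'n : ¬ HN f (N + 1) v' := fun h => hnHN ⟨v', hv'0, h, hβR⟩
  -- the function G
  let G : OO k t → Om := fun x => Theta m b (toC x / (f * 3 ^ (N + 1) : ℕ))
  have hGper : ∀ x y : OO k t, UR ((f * 3 ^ (N + 1) : ℕ) : OO k t) x y → G x = G y :=
    fun x y h => th_UR D8 hF.ne hb hm30 hM' h
  -- the left side
  have hab : a * b ≠ ⊥ := mul_ne_zero ha.ne hb
  have hPab : PrI (a * b) (3 * f) := (o1 _ a b).2 ⟨hPa, hPb⟩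
  have haab : a * (a * b) ≠ ⊥ := mul_ne_zero ha.ne hab
  have hPaab : PrI (a * (a * b)) (3 * f) := (o1 _ a (a * b)).2 ⟨hPa, hPab⟩
  obtain ⟨r1, -, -, r4, -⟩ := aO7 k t (f * 3 ^ (N + 1)) hM'
  have hR1 : Ray (f * 3 ^ (N + 1)) (a * b) (sp v' * b) := r4 _ _ _ _ hβR (r1 b)
  have hR2 : Ray (f * 3 ^ (N + 1)) (a * (a * b)) (sp (v' * v') * b) := by
    have h1 := r4 _ _ _ _ hβR hR1
    rwa [← mul_assoc (sp v'),
      show sp v' * sp v' = sp (v' * v') from Ideal.span_singleton_mul_span_singleton _ _] at h1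
  have hN1 : 1 ≤ N + 1 := by omega
  have hu0 : uN f (N + 1) m T' b = ∏ h ∈ T', G h := rfl
  have hu1 : s (uN f (N + 1) m T' b) = ∏ h ∈ T', G (v' * h) := by
    rw [(cUBb k t f m (N + 1) T' hF hN1 hT' b hb hPb).2 s hs a ha,
      ← (cUBa k t f m (N + 1) T' hF hN1 hT' (a * b) hab hPab).2.2.1 (sp v' * b) hR1,
      (cUBa k t f m (N + 1) T' hF hN1 hT' b hb hPb).2.2.2.1 v' hv'0]
  have hu2 : s (s (uN f (N + 1) m T' b)) = ∏ h ∈ T', G (v' * (v' * h)) := by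
    rw [(cUBb k t f m (N + 1) T' hF hN1 hT' b hb hPb).2 s hs a ha,
      (cUBb k t f m (N + 1) T' hF hN1 hT' (a * b) hab hPab).2 s hs a ha,
      ← (cUBa k t f m (N + 1) T' hF hN1 hT' (a * (a * b)) haab hPaab).2.2.1 (sp (v' * v') * b) hR2,
      (cUBa k t f m (N + 1) T' hF hN1 hT' b hb hPb).2.2.2.1 (v' * v') (mul_ne_zero hv'0 hv'0)]
    refine Finset.prod_congr rfl fun h _ => ?_
    change Theta m b _ = Theta m b _
    rw [mul_assoc]
  have hleft := aTwR k t f N T T' v' hF.toFok (by omega) hT hT' hv'H hv'n Om G hGper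
  -- the inner products
  obtain ⟨C, hCM, hC0, hC⟩ := cCT k t f m b hF hb hPb
  have hPb3 : PrI b 3 := pri_dvd (dvd_mul_right 3 f) hPb
  have hPm3 : PrI m 3 := pri_dvd (dvd_mul_right 3 f) hF.prm
  obtain ⟨x, hx, -, w, hw⟩ := o5 3 b (by norm_num) hb hPb3
  have hinj : Set.InjOn (fun e : OO k t => toC e / 3) (E3 k t : Set (OO k t)) := by
    intro e he e' he' h
    have h1 : toC e / 3 = toC e' / 3 := h
    exact toC_inj (by linear_combination 3 * h1)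
  have hsys : IsSys (sp 3) b ((E3 k t).image fun e => toC e / 3) := by
    refine sys3 b x w hx (by exact_mod_cast hw) _ fun u => ?_
    rw [Finset.mem_image]
  have hmb : m * b ≠ ⊥ := mul_ne_zero hF.ne hb
  have hmb3 : PrI (m * b) 3 := (o1 3 m b).2 ⟨hPm3, hPb3⟩
  have hin : ∀ h ∈ T, ∏ e ∈ E3 k t, G (h + (f * 3 ^ N : ℕ) * e) =
      C * Theta m b (toC h / (f * 3 ^ N : ℕ)) := by
    intro h hh
    have hh3 : Cop h 3 := cop_dvd (q8 h (hT.mem h hh).1) (dvd_mul_right 3 f)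
    have e3 : 3 * (toC h / (f * 3 ^ (N + 1) : ℕ)) = toC h / (f * 3 ^ N : ℕ) := by
      rw [hM3]
      field_simp
    have hnl : 3 * (toC h / (f * 3 ^ (N + 1) : ℕ)) ∉ Lam (m * b) := by
      rw [e3]
      exact pt_not hmb hmb3 hf0 (by omega) hh3
    have h1 := hC _ hsys (toC h / (f * 3 ^ (N + 1) : ℕ)) (tor_div hM' h) hnl
    rw [Finset.prod_image hinj, e3] at h1
    rw [← h1]
    refine Finset.prod_congr rfl fun e _ => ?_
    change Theta m b _ = Theta m b _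
    apply congrArg
    rw [toC_add, toC_mul, toC_nat, hM3]
    field_simp
  obtain ⟨j, hj⟩ := aT3 k t f N T hF.toFok hN hT
  refine ⟨C ^ j, pow_mem hCM j, pow_ne_zero j hC0, ?_⟩
  rw [hu2, hu1, hu0, hleft, Finset.prod_congr rfl hin, Finset.prod_mul_distrib, Finset.prod_const,
    hj, ← pow_mul, mul_comm j 3]
  rfl

/-- `S_G3` for all imaginary quadratic fields; all but the norm relation for `1 ≤ N`. -/
def C_G3 : Prop :=
  ∀ (n t : ℕ) [SqN n t] (f : ℕ) (m : Ideal (OO n t)) (N : ℕ) (T : Finset (OO n t)), FM f m →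
    1 ≤ N → IsRep f N T → ∀ b : Ideal (OO n t), b ≠ ⊥ → PrI b (3 * f) →
      uN f N m T b ∈ Mn n t f N ∧ uN f N m T b ≠ 0 ∧ (∀ Q : Ideal ZZ, Npr Q → UP Q (uN f N m T b)) ∧
      (∀ b' : Ideal (OO n t), Ray (f * 3 ^ N) b b' → uN f N m T b' = uN f N m T b) ∧
      (∀ a : Ideal (OO n t), HPN f N a → uN f N m T (a * b) = uN f N m T b) ∧
      (∀ τ ∈ GK n t, ∀ a : Ideal (OO n t), Psi τ (f * 3 ^ N) a →
        τ (uN f N m T b) = uN f N m T (a * b)) ∧
      (∀ T' : Finset (OO n t), IsRep f N T' → uN f N m T' b = uN f N m T b) ∧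
      (2 ≤ N → ∀ T' : Finset (OO n t), IsRep f (N + 1) T' → ∀ s ∈ GK n t, ∀ a : Ideal (OO n t),
        Psi s (f * 3 ^ (N + 1)) a → HPN f N a → ¬ HPN f (N + 1) a →
          ∃ c ∈ Mf n t f, c ≠ 0 ∧ uN f (N + 1) m T' b * s (uN f (N + 1) m T' b) *
            s (s (uN f (N + 1) m T' b)) = c ^ 3 * uN f N m T b)

theorem aG3n (D5 : S_D5) (D7 : S_D7) (D8 : S_D8) (E1 : DS.S_E1) (E10 : S_E10) : C_G3 := by
  have cUBa := aUBa D5 D8
  have cUBb := aUBb E1 E10 cUBa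
  have cTwo := aTwo D8 cUBa cUBb (aCT D7 D8 E1 E10)
  intro k t _ f m N T hF hN hT b hb hPb
  obtain ⟨u1, u2, u3, -, u5, u6⟩ := cUBa k t f m N T hF hN hT b hb hPb
  obtain ⟨v1, v2⟩ := cUBb k t f m N T hF hN hT b hb hPb
  exact ⟨v1, u1, u2, u3, u5, v2, u6, fun hN2 => cTwo k t f m N T hF hN2 hT b hb hPb⟩

/-- **The elliptic units.** -/
theorem aG3 (D5 : S_D5) (D7 : S_D7) (D8 : S_D8) (E1 : DS.S_E1) (E10 : S_E10) : S_G3 := by
  intro k t _ f m N T hF hN hT b hb hPb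
  obtain ⟨h1, h2, h3, h4, h5, h6, h7, h8⟩ :=
    aG3n D5 D7 D8 E1 E10 k t f m N T hF (by omega) hT b hb hPb
  exact ⟨h1, h2, h3, h4, h5, h6, h7, h8 hN⟩

end Pool.Agent.DM.G
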