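import Pool.Agent.Lib.DM.G.NQ
import Pool.Agent.Lib.DN.B.All

/-!
# Theorem DM, part G, module UBa: elliptic units, first properties
-/

set_option autoImplicit false

open scoped Pointwise

noncomputable section

namespace Pool.Agent.DM.G

open Pool.Agent.MuZ Pool.Agent.FW Pool.Agent.DN
open Pool.Agent.DI (io ofC io_inj exists_io io_ofC ofC_io VP MP UP TP ex)
open Pool.Agent.DS.G (IsRp UR unit_inv)

variable {k t : ℕ}

/-- The units: first properties. -/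
def C_UBa : Prop :=
  ∀ (k t : ℕ) [SqN k t] (f : ℕ) (m : Ideal (OO k t)) (N : ℕ) (T : Finset (OO k t)), FM f m → 1 ≤ N →
    IsRep f N T → ∀ b : Ideal (OO k t), b ≠ ⊥ → PrI b (3 * f) →
      uN f N m T b ≠ 0 ∧ (∀ Q : Ideal ZZ, Npr Q → UP Q (uN f N m T b)) ∧
      (∀ b' : Ideal (OO k t), Ray (f * 3 ^ N) b b' → uN f N m T b' = uN f N m T b) ∧
      (∀ v : OO k t, v ≠ 0 →
        uN f N m T (sp v * b) = ∏ h ∈ T, Theta m b (toC (v * h) / (f * 3 ^ N : ℕ))) ∧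
      (∀ a : Ideal (OO k t), HPN f N a → uN f N m T (a * b) = uN f N m T b) ∧
      ∀ T' : Finset (OO k t), IsRep f N T' → uN f N m T' b = uN f N m T b

/-- `Theta` over `Om`: even, periodic, homogeneous, not zero. -/
theorem th_facts (D8 : S_D8) [SqN k t] {m b : Ideal (OO k t)} (hm : m ≠ ⊥) (hb : b ≠ ⊥)
    (hm30 : PrI m 30) :
    (∀ z : ℂ, Theta m b (-z) = Theta m b z ∧ ∀ l ∈ Lam b, Theta m b (z + l) = Theta m b z) ∧
    (∀ (α : OO k t) (z : ℂ), α ≠ 0 → Theta m (sp α * b) z = Theta m b (toC α * z)) ∧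
    (PrI b 30 → ∀ z : ℂ, Tor k t z → z ∉ Lam (m * b) → Theta m b z ≠ 0) := by
  obtain ⟨-, h2, h3, -, h5⟩ := D8 k t m b hm hb hm30
  have hm2 : PrI m 2 := (((aO6 k t).2.1 2 15 m).1 hm30).1
  refine ⟨fun z => ⟨?_, fun l hl => ?_⟩, fun α z hα => ?_, fun hb30 z hz hz' => ?_⟩
  · unfold Theta
    rw [(h2 z).1]
  · unfold Theta
    rw [(h2 z).2 l hl]
  · unfold Theta
    rw [h3 α z hα]
  · exact (h5 ⟨hb, hb30⟩ (hs m b) (aB14 k t m b hm hb hm2).1 z hz hz').1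

/-- The values of an even function on `ℂ / Lam b` at the points `t / M` are periodic modulo `M`. -/
theorem th_per [SqN k t] {m b : Ideal (OO k t)} {M : ℕ} (hM : 0 < M)
    (hl : ∀ z : ℂ, ∀ l ∈ Lam b, Theta m b (z + l) = Theta m b z) {v u : OO k t}
    (h : (M : OO k t) ∣ v - u) : Theta m b (toC v / M) = Theta m b (toC u / M) := by
  obtain ⟨c, hc⟩ := h
  have hM' : (M : ℂ) ≠ 0 := by exact_mod_cast hM.ne'
  have hv : v = u + M * c := by rw [← hc]; ring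
  have e : toC v / (M : ℂ) = toC u / M + toC c := by
    rw [hv, toC_add, toC_mul, toC_nat]
    field_simp
  have hcl : toC c ∈ Lam b := by
    have h1 : toC c ∈ Lam (b * (⊤ : Ideal (OO k t))) := lam_mono (lam_top.2 ⟨c, rfl⟩)
    rwa [Ideal.mul_top] at h1
  rw [e]
  exact hl _ _ hcl

/-- Units of `O`. -/
theorem th_unit [SqN k t] {m b : Ideal (OO k t)} {M : ℕ}
    (h3 : ∀ (α : OO k t) (z : ℂ), α ≠ 0 → Theta m (sp α * b) z = Theta m b (toC α * z))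
    {e : OO k t} (he : Nm e = 1) (v : OO k t) :
    Theta m b (toC (e * v) / M) = Theta m b (toC v / M) := by
  have he0 : e ≠ 0 := by
    rintro rfl
    rw [Nm_zero] at he
    exact zero_ne_one he
  have h1 : sp e = ⊤ := Ideal.span_singleton_eq_top.2 (isUnit_iff_exists_inv.2 ⟨cjO e, (unit_inv he).1⟩)
  have h2 := h3 e (toC v / M) he0
  rw [h1, Ideal.top_mul] at h2
  rw [h2, toC_mul, mul_div_assoc]

/-- The values at the points `t/M` depend only on `t` modulo `M` and the units. -/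
theorem th_UR (D8 : S_D8) [SqN k t] {m b : Ideal (OO k t)} (hm : m ≠ ⊥) (hb : b ≠ ⊥)
    (hm30 : PrI m 30) {M : ℕ} (hM : 0 < M) {v u : OO k t} (h : UR (M : OO k t) v u) :
    Theta m b (toC v / M) = Theta m b (toC u / M) := by
  obtain ⟨g1, g2, -⟩ := th_facts D8 hm hb hm30
  obtain ⟨e, he, h⟩ := h
  rw [th_per hM (fun z => (g1 z).2) h, th_unit g2 he]

/-- The points `h / M` are not in `Lam c`. -/
theorem pt_not [SqN k t] {c : Ideal (OO k t)} (hc : c ≠ ⊥)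
    (hc3 : PrI c 3) {f N : ℕ} (hf : 0 < f) (hN : 1 ≤ N) {h : OO k t} (hh : Cop h 3) :
    toC h / (f * 3 ^ N : ℕ) ∉ Lam c := by
  intro hz
  obtain ⟨x, hx, _, hx1⟩ := (aO6 k t).2.2.2.2 3 c (by norm_num) hc hc3
  have hxc : Cop x 3 := by
    apply cop_congr (a := 1) _ (cop_one 3)
    have h1 : (1 : OO k t) - x = -(x - 1) := by ring
    rw [h1]
    exact (dvd_neg).2 hx1
  obtain ⟨u, hu⟩ := hz x hx
  have hM : ((f * 3 ^ N : ℕ) : ℂ) ≠ 0 := by
    have : f * 3 ^ N ≠ 0 := by positivity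
    exact_mod_cast this
  have e : x * h = ((f * 3 ^ N : ℕ) : OO k t) * u := by
    apply toC_inj
    rw [toC_mul, toC_mul, toC_nat, ← hu]
    field_simp
  have hxh : Cop (x * h) 3 := cop_mul hxc hh
  refine not_dvd3 hxh ?_
  rw [e]
  apply Dvd.dvd.mul_right
  have h4 : (3 : ℕ) ∣ f * 3 ^ N := Dvd.dvd.mul_left (dvd_pow_self 3 (by omega)) f
  exact_mod_cast Nat.cast_dvd_cast (α := OO k t) h4

/-- Divisibility of the modulus. -/
theorem pri_dvd [SqN k t] {a : Ideal (OO k t)} {M M' : ℕ} (h : M' ∣ M) (ha : PrI a M) :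
    PrI a M' := by
  obtain ⟨j, rfl⟩ := h
  exact (((aO6 k t).2.1 M' j a).1 ha).1

/-- Elliptic units: units, class function. -/
theorem aUBa (hD5 : S_D5) (hD8 : S_D8) : C_UBa := by
  intro k t _ f m N T hy hN hT0 b hb hb2f
  have hT := isRep_iff.1 hT0
  have hf0 : 0 < f := hy.pos
  have hM : 0 < f * 3 ^ N := by positivity
  have h30f : 30 ∣ 3 * f := by
    obtain ⟨c, hc⟩ := hy.dvd
    exact ⟨2 * c, by rw [hc]; ring⟩
  obtain ⟨⟨-, -⟩, -, n3, -, n5, -, n7, -, n9, -, -, -, c10, h3fM⟩ := aHNf k t f N hN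
  have h15M : 15 ∣ f * 3 ^ N := (dvd_trans (by norm_num : 15 ∣ 30) h30f).trans h3fM
  obtain ⟨o1, o2, _, o4, _⟩ := aO6 k t
  have hm30 : PrI m 30 := pri_dvd h30f hy.prm
  have hg15 : ∀ a : Ideal (OO k t), a ≠ ⊥ → PrI a (3 * f) → G15 a := fun a h1 h2 =>
    ⟨h1, pri_dvd ((by norm_num : 15 ∣ 30).trans h30f) h2⟩
  have hb3 : PrI b 3 := ((o2 3 f b).1 hb2f).1
  have hGb : G15 b := hg15 b hb hb2f
  have hb30 : PrI b 30 := pri_dvd h30f hb2f
  have hmem := hT.mem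
  have hmb : m * b ≠ ⊥ := mul_ne_zero hy.ne hb
  have hmb3 : PrI (m * b) 3 := (o1 3 m b).2 ⟨((o2 3 f m).1 hy.prm).1, hb3⟩
  obtain ⟨c1, c2, c3, c4, c5, c6, c7, c8, c9⟩ := DS.G.aCop k t
  have hcop2f : ∀ h ∈ T, Cop h (3 * f) := fun h hh => (hmem h hh).1.1
  have hcop3 : ∀ h ∈ T, Cop h 3 := fun h hh => ((c2 h 3 f).1 (hcop2f h hh)).1
  -- class function
  have hclass : ∀ b1 b2 : Ideal (OO k t), G15 b1 → Ray (f * 3 ^ N) b1 b2 →
      uN f N m T b2 = uN f N m T b1 := by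
    intro b1 b2 hb1 hR
    have hb2' : G15 b2 := by
      refine ⟨((aO7 k t (f * 3 ^ N) hM).2.2.2.2.2.1 b1 b2 hR).1.1 hb1.ne, ?_⟩
      have hR15 : Ray 15 b1 b2 := (aO7 k t (f * 3 ^ N) hM).2.2.2.2.2.2.1 15 b1 b2 h15M hR
      exact ((aO7 k t 15 (by norm_num)).2.2.2.2.2.1 b1 b2 hR15).2.1 hb1.cop
    unfold uN
    refine Finset.prod_congr rfl fun h _ => ?_
    exact (DS.G.aRayF k t (f * 3 ^ N) Om (fun b z => Theta m b z) hM h15M
      (fun b α z hb hα hα15 hz => (th_facts hD8 hy.ne hb.ne hm30).2.1 α z hα)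
      (fun b z l hb hl => ((th_facts hD8 hy.ne hb.ne hm30).1 z).2 l hl) b1 b2 hb1 hb2' hR h).symm
  obtain ⟨g1, g2, g3⟩ := th_facts hD8 hy.ne hb hm30
  have hmul : ∀ v : OO k t, v ≠ 0 →
      uN f N m T (sp v * b) = ∏ h ∈ T, Theta m b (toC (v * h) / (f * 3 ^ N : ℕ)) := by
    intro v hv
    unfold uN
    refine Finset.prod_congr rfl fun h _ => ?_
    rw [g2 v _ hv, toC_mul, mul_div_assoc]
  have hper : ∀ v u : OO k t, HN f N v → HN f N u → UR ((f * 3 ^ N : ℕ) : OO k t) v u →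
      Theta m b (toC v / (f * 3 ^ N : ℕ)) = Theta m b (toC u / (f * 3 ^ N : ℕ)) :=
    fun v u _ _ h => th_UR hD8 hy.ne hb hm30 hM h
  refine ⟨?_, ?_, fun b' hR => hclass b b' hGb hR, hmul, ?_, ?_⟩
  · unfold uN
    apply Finset.prod_ne_zero_iff.2
    intro h hh
    exact g3 hb30 _ (tor_div hM h) (pt_not hmb hmb3 hf0 hN (hcop3 h hh))
  · intro Q hQ
    have := hQ.1
    unfold uN
    refine DI.UP.prod _ _ fun h hh => ?_
    exact hD5 k t m b hy.ne ⟨hb, hb30⟩ hm30 Q hQ _ (tor_div hM h)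
      (fun u hu => (aNQ k t f N m b hy hN hb hb2f Q hQ h (hcop2f h hh) u hu).1)
  · rintro a ⟨v, hv0, hv, hR⟩
    have hvc : Cop v (3 * f) := hv.1.1
    have hvb : sp v * b ≠ ⊥ := mul_ne_zero (fun h => hv0 (Ideal.span_singleton_eq_bot.1 h)) hb
    have hvb2 : PrI (sp v * b) (3 * f) :=
      (o1 (3 * f) (sp v) b).2 ⟨(o4 (3 * f) v (by positivity)).2 hvc, hb2f⟩
    obtain ⟨r1, r2, _, r4, _⟩ := aO7 k t (f * 3 ^ N) hM
    rw [hclass (sp v * b) (a * b) (hg15 _ hvb hvb2) (r4 _ _ _ _ (r2 _ _ hR) (r1 b)), hmul v hv0]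
    obtain ⟨v', _, hv'c, hvv'⟩ := c5 v (f * 3 ^ N) hM (n9 v hv)
    have hv'N : HN f N v' := n7 v v' hv hvv'
    exact (DS.G.aRp k t).2 (f * 3 ^ N) (fun v => HN f N v) T Om
      (fun t => Theta m b (toC t / (f * 3 ^ N : ℕ))) v v' hT hvv'
      (fun w hw => n3 _ _ hv hw) (fun w hw => n3 _ _ hv'N hw) hper
  · intro T' hT''
    exact (DS.G.aRp k t).1 (f * 3 ^ N) (fun v => HN f N v) T' T Om
      (fun t => Theta m b (toC t / (f * 3 ^ N : ℕ))) (isRep_iff.1 hT'') hT hper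

end Pool.Agent.DM.G
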