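import Pool.Agent.Lib.DM.G.UBa

/-!
# Theorem DM, part G, module UBb: elliptic units, Galois action
-/

set_option autoImplicit false

open scoped Pointwise

noncomputable section

namespace Pool.Agent.DM.G

open Pool.Agent.MuZ Pool.Agent.FW Pool.Agent.DN
open Pool.Agent.DI (io ofC io_inj exists_io io_ofC ofC_io VP MP UP TP ex)

variable {k t : ℕ}

/-- The units: Galois action. -/
def C_UBb : Prop :=
  ∀ (k t : ℕ) [SqN k t] (f : ℕ) (m : Ideal (OO k t)) (N : ℕ) (T : Finset (OO k t)), FM f m → 1 ≤ N →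
    IsRep f N T → ∀ b : Ideal (OO k t), b ≠ ⊥ → PrI b (3 * f) → uN f N m T b ∈ Mn k t f N ∧
      ∀ τ ∈ GK k t, ∀ a : Ideal (OO k t), Psi τ (f * 3 ^ N) a → τ (uN f N m T b) = uN f N m T (a * b)

theorem lam_toC [SqN k t] (b : Ideal (OO k t)) (v : OO k t) : toC v ∈ Lam b :=
  lam_anti le_top (lam_top.2 ⟨v, rfl⟩)

theorem aUBb (hE1 : DS.S_E1) (hE10 : S_E10) (hA : C_UBa) : C_UBb := by
  intro k t _ f m N T hH hN hT b hb hPb
  have hm : 0 < f * 3 ^ N := Nat.mul_pos hH.pos (by positivity)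
  have h60f : 60 ∣ 3 * f := by
    obtain ⟨c, hc⟩ := hH.dvd
    exact ⟨c, by rw [hc]; ring⟩
  obtain ⟨-, -, -, -, -, -, -, -, -, -, -, -, -, h3fM⟩ := aHNf k t f N hN
  have h60 : 60 ∣ f * 3 ^ N := h60f.trans h3fM
  have h15 : 15 ∣ f * 3 ^ N := (by norm_num : 15 ∣ 60).trans h60
  have hn : 0 < NI m := by
    refine Nat.pos_of_ne_zero fun h => hH.ne ?_
    exact ((aO2 k t).2.2.2.2.2.1 m).1 h
  have hb30 : PrI b 30 := pri_dvd ((by norm_num : 30 ∣ 60).trans h60f) hPb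
  have hm30 : PrI m 30 := pri_dvd ((by norm_num : 30 ∣ 60).trans h60f) hH.prm
  have key : ∀ τ ∈ GK k t, ∀ a : Ideal (OO k t), Psi τ (f * 3 ^ N) a →
      τ (uN f N m T b) = uN f N m T (a * b) := by
    intro τ hτ a ha
    have hM : 0 < f * 3 ^ N * NI m := Nat.mul_pos hm hn
    have hM60 : 60 ∣ f * 3 ^ N * NI m := h60.mul_right _
    have hM15 : 15 ∣ f * 3 ^ N * NI m := h15.mul_right _
    obtain ⟨a', ha'⟩ := (hE1 k t (f * 3 ^ N * NI m) hM hM15).1 τ hτ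
    have ha2 : Psi τ (f * 3 ^ N) a' :=
      (hE1 k t _ hM hM15).2.2.2.2 τ (f * 3 ^ N) a' ha' (dvd_mul_right _ _) h15
    have hray : Ray (f * 3 ^ N) a a' := (hE1 k t _ hm h15).2.1 τ a a' ha ha2
    have h1 : τ (uN f N m T b) = uN f N m T (a' * b) := by
      unfold uN
      rw [map_prod]
      refine Finset.prod_congr rfl fun t' _ => ?_
      refine ((hE10 k t τ (f * 3 ^ N * NI m) a' hM hM60 ha').2.2 m b hH.ne ⟨hb, hb30⟩ hm30
        (dvd_mul_left _ _) _ ?_).2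
      have hm' : ((f * 3 ^ N : ℕ) : ℂ) ≠ 0 := by exact_mod_cast hm.ne'
      have e : ((f * 3 ^ N * NI m : ℕ) : ℂ) * (toC t' / ((f * 3 ^ N : ℕ) : ℂ)) = (NI m : ℂ) * toC t' := by
        rw [Nat.cast_mul]
        field_simp
      rw [e]
      exact lam_nat _ (lam_toC b t')
    have h2 : uN f N m T (a' * b) = uN f N m T (a * b) := by
      have hab : a * b ≠ ⊥ := mul_ne_zero ha.ne hb
      have hPa0 : PrI a (f * 3 ^ N) := (((aO6 k t).2.1 15 _ a).1 ha.cop).2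
      have hPa : PrI a (3 * f) := pri_dvd h3fM hPa0
      have hPab : PrI (a * b) (3 * f) := ((aO6 k t).1 (3 * f) a b).2 ⟨hPa, hPb⟩
      refine (hA k t f m N T hH hN hT (a * b) hab hPab).2.2.1 (a' * b) ?_
      exact (aO7 k t _ hm).2.2.2.1 a a' b b hray ((aO7 k t _ hm).1 b)
    rw [h1, h2]
  refine ⟨?_, key⟩
  intro τ hτ a ha hHa
  rw [key τ hτ a ha]
  exact (hA k t f m N T hH hN hT b hb hPb).2.2.2.2.1 a hHa

end Pool.Agent.DM.G
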